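import Pool.Agent.helper28.CF.Words

/-!
# CF-Chain: labelling the cycles and paths of units

`A` is a finite set of units `x`, each with two ports `(x, false)`, `(x, true)`; `σ` links ports (an
involution on the ports of the units of `A`; a fixed point is a port which is not linked); `R x` is a relation between the
states of the two ports of `x`, it is a word relation (`WR`, Defs.lean), and it is the relation of a
word of at least two letters (`B x = true`) if the two ports of `x` are linked to each other.  Then there
are states which satisfy all relations, are compatible over the links, and satisfy `Cap` at the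
unlinked ports.

PROOF.  Induction on `n = card A` (`induction n generalizing ...` or strong induction).

(1) There are `x, y ∈ A`, `x ≠ y` and `b, c` with `σ (x, b) = (y, c)`.  Merge `y` into `x`.  Let
`fl b R s t := if b then R s t else R t s` (in-state `s` at the port `!b`, out-state `t` at the port `b`); by `WR.swap` it
is a word relation, and `fl b (fl b R) = R`, and `fl b (R x) (s (x, !b)) (s (x, b)) ↔ R x (s (x, false)) (s (x, true))`.
Let `K = Cmp (fl b (R x)) (fl (!c) (R y))`, a word relation of type `true` (`WR.comp`).  New data on `A' = A.erase y`: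
`R' = Function.update R x (fl b K)`, `B' = Function.update B x true`, and the port `(x, b)` takes over the role of `(y, !c)`:
* `σ' (x, b) = (x, b)` if `σ (y, !c) = (y, !c)`, otherwise `σ' (x, b) = σ (y, !c)` (it is not a port of `y`: not `(y, !c)`, and not
  `(y, c)` because `σ (y, c) = (x, b)`; it may be `(x, !b)`);
* for `p ≠ (x, b)`, `p.1 ∈ A'`: `σ' p = (x, b)` if `σ p = (y, !c)`, otherwise `σ' p = σ p` (not a port of `y`: `σ p = (y, c)` only for
  `p = (x, b)`).
`C' = Function.update C (x, b) (C (y, !c))`.
(Define `σ' p = if p = (x, b) then (if σ (y, !c) = (y, !c) then (x, b) else σ (y, !c)) else if σ p = (y, !c) then (x, b) else σ p`.)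
The hypotheses hold for `A'` (for ports `p` with `p.1 ∈ A'`).  Let `s'` be the states from the induction hypothesis.
`fl b (R' x) = K` holds for `s' (x, !b)`, `s' (x, b)`: there are `u, v` with `fl b (R x) (s' (x, !b)) u`, `Cp u v`,
`fl (!c) (R y) v (s' (x, b))`.  Define `s (y, c) = v`, `s (y, !c) = s' (x, b)`, `s (x, b) = u`, and `s p = s' p` for all other
ports.  Check the three properties (the links are: the link `(x, b) - (y, c)`: `Cp u v`; the link of `(y, !c)`: the link of
`(x, b)` under `σ'`; all others unchanged).

(2) Otherwise `σ (x, b) ∈ {(x, b), (x, !b)}` for all `x ∈ A`.  Choose the states of each `x ∈ A` separately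
(`Classical.choose` / `choose`): if `σ (x, false) = (x, true)` use `WR.closes` (`B x = true`), otherwise both ports are unlinked:
`WR.caps`.
-/

set_option autoImplicit false

namespace Pool.Agent.helper28.CF

private def chainFl (b : Bool) (R : St → St → Prop) : St → St → Prop :=
  fun s t => cond b (R s t) (R t s)

private theorem chainFl_wr (b : Bool) {e : Bool} {R : St → St → Prop} (h : WR e R) :
    WR e (chainFl b R) := by
  cases b
  · exact WR.swap h
  · exact h

private theorem chainFl_fl (b : Bool) (R : St → St → Prop) {ι : Type} (x : ι)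
    (s : ι × Bool → St) (h : chainFl b R (s (x, false)) (s (x, true))) : R (s (x, !b)) (s (x, b)) := by
  cases b
  · exact h
  · exact h

private theorem chain_base {ι : Type} [DecidableEq ι] (A : Finset ι)
    (σ : ι × Bool → ι × Bool) (R : ι → St → St → Prop) (B : ι → Bool)
    (hA : ∀ p, p.1 ∈ A → (σ p).1 ∈ A) (hσ : ∀ p, p.1 ∈ A → σ (σ p) = p)
    (hR : ∀ x ∈ A, WR (B x) (R x)) (hB : ∀ x ∈ A, ∀ b, σ (x, b) = (x, !b) → B x = true)
    (hno : ¬ ∃ x ∈ A, ∃ y ∈ A, x ≠ y ∧ ∃ b c, σ (x, b) = (y, c)) :
    ∃ s : ι × Bool → St, (∀ x ∈ A, R x (s (x, false)) (s (x, true))) ∧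
      (∀ p, p.1 ∈ A → σ p ≠ p → Cp (s p) (s (σ p))) ∧
      ∀ p, p.1 ∈ A → σ p = p → Cap (s p) := by
  have hsame : ∀ x ∈ A, ∀ b, σ (x, b) = (x, b) ∨ σ (x, b) = (x, !b) := by
    intro x hx b
    have h1 : (σ (x, b)).1 ∈ A := hA (x, b) hx
    have h2 : (σ (x, b)).1 = x := by
      by_contra hne
      exact hno ⟨x, hx, (σ (x, b)).1, h1, fun h => hne h.symm, b, (σ (x, b)).2, rfl⟩
    rcases hq : σ (x, b) with ⟨z, d⟩
    rw [hq] at h2
    simp only at h2
    subst h2
    cases b <;> cases d <;> simp
  have key : ∀ x : ι, ∃ st : St × St, x ∈ A → R x st.1 st.2 ∧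
      (σ (x, false) = (x, true) → Cp st.1 st.2) ∧
      (σ (x, false) = (x, false) → Cap st.1 ∧ Cap st.2) := by
    intro x
    by_cases hx : x ∈ A
    · by_cases hc : σ (x, false) = (x, true)
      · have hb := hB x hx false hc
        have hw := hR x hx
        rw [hb] at hw
        obtain ⟨s, t, h1, h2⟩ := hw.closes
        refine ⟨(s, t), fun _ => ⟨h1, fun _ => h2.symm, fun h => ?_⟩⟩
        rw [hc] at h
        simp at h
      · obtain ⟨s, t, h1, h2, h3⟩ := (hR x hx).caps
        exact ⟨(s, t), fun _ => ⟨h1, fun h => absurd h hc, fun _ => ⟨h2, h3⟩⟩⟩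
    · exact ⟨((0, 0, 0), (0, 0, 0)), fun h => absurd h hx⟩
  choose st hst using key
  refine ⟨fun p => cond p.2 (st p.1).2 (st p.1).1, fun x hx => (hst x hx).1, ?_, ?_⟩
  · rintro ⟨x, b⟩ hx hne
    simp only at hx
    have h1 : σ (x, b) = (x, !b) := (hsame x hx b).resolve_left hne
    rw [h1]
    cases b
    · exact (hst x hx).2.1 h1
    · have h2 : σ (x, false) = (x, true) := by
        have := hσ (x, true) hx
        rw [h1] at this
        exact this
      exact ((hst x hx).2.1 h2).symm
  · rintro ⟨x, b⟩ hx he
    simp only at hx
    cases b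
    · exact ((hst x hx).2.2 he).1
    · have h2 : σ (x, false) = (x, false) := by
        rcases hsame x hx false with h | h
        · exact h
        · have := hσ (x, false) hx
          rw [h] at this
          simp only [Bool.not_false] at this
          rw [he] at this
          simp at this
      exact ((hst x hx).2.2 h2).2

theorem chain {ι : Type} [DecidableEq ι] (n : ℕ) : ∀ (A : Finset ι), A.card = n →
    ∀ (σ : ι × Bool → ι × Bool) (R : ι → St → St → Prop) (B : ι → Bool) (C : ι × Bool → Prop),
    (∀ p, p.1 ∈ A → (σ p).1 ∈ A) → (∀ p, p.1 ∈ A → σ (σ p) = p) →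
    (∀ x ∈ A, WR (B x) (R x)) → (∀ x ∈ A, ∀ b, σ (x, b) = (x, !b) → B x = true) →
    ∃ s : ι × Bool → St, (∀ x ∈ A, R x (s (x, false)) (s (x, true))) ∧
      (∀ p, p.1 ∈ A → σ p ≠ p → Cp (s p) (s (σ p))) ∧
      ∀ p, p.1 ∈ A → σ p = p → C p → Cap (s p) := by
  induction n with
  | zero =>
    intro A hA σ R B C _ _ _ _
    have hA' : A = ∅ := Finset.card_eq_zero.mp hA
    subst hA'
    exact ⟨fun _ => (0, 0, 0), by simp, by simp, by simp⟩
  | succ n ih =>
    intro A hcard σ R B C hA hσ hR hB
    by_cases hno : ∃ x ∈ A, ∃ y ∈ A, x ≠ y ∧ ∃ b c, σ (x, b) = (y, c)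
    swap
    · obtain ⟨s, h1, h2, h3⟩ := chain_base A σ R B hA hσ hR hB hno
      exact ⟨s, h1, h2, fun p hp hq _ => h3 p hp hq⟩
    obtain ⟨x, hx, y, hy, hxy, b, c, hl⟩ := hno
    have hyc : σ (y, c) = (x, b) := by
      have := hσ (x, b) hx
      rwa [hl] at this
    have hcc : ((y, !c) : ι × Bool) ≠ (y, c) := by cases c <;> simp
    -- facts on the partner of `(y, !c)`
    have hq1 : σ (y, !c) ≠ (x, b) := by
      intro h
      have h2 := hσ (y, !c) hy
      rw [h, hl] at h2
      exact hcc h2.symm
    have hq2 : σ (y, !c) ≠ (y, c) := by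
      intro h
      have h2 := hσ (y, !c) hy
      rw [h, hyc] at h2
      exact hxy (congrArg Prod.fst h2)
    have hport : ∀ p : ι × Bool, p.1 = y → p = (y, c) ∨ p = (y, !c) := by
      rintro ⟨z, d⟩ h
      simp only at h
      subst h
      cases c <;> cases d <;> simp
    set K : St → St → Prop := Cmp (chainFl b (R x)) (chainFl (!c) (R y)) with hK
    set A' : Finset ι := A.erase y with hA'
    have hxA' : x ∈ A' := Finset.mem_erase.mpr ⟨hxy, hx⟩
    set σ' : ι × Bool → ι × Bool := fun p =>
      if p = (x, b) then (if σ (y, !c) = (y, !c) then (x, b) else σ (y, !c))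
      else if σ p = (y, !c) then (x, b) else σ p with hσ'
    have e1 : σ (y, !c) = (y, !c) → σ' (x, b) = (x, b) := by
      intro h
      simp [hσ', h]
    have e2 : σ (y, !c) ≠ (y, !c) → σ' (x, b) = σ (y, !c) := by
      intro h
      simp [hσ', h]
    have e3 : ∀ p, p ≠ (x, b) → σ p = (y, !c) → σ' p = (x, b) := by
      intro p h h'
      simp [hσ', h, h']
    have e4 : ∀ p, p ≠ (x, b) → σ p ≠ (y, !c) → σ' p = σ p := by
      intro p h h'
      simp [hσ', h, h']
    have hne : ∀ p : ι × Bool, p.1 ∈ A' → p.1 ∈ A ∧ p.1 ≠ y := fun p hp =>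
      ⟨(Finset.mem_erase.mp hp).2, (Finset.mem_erase.mp hp).1⟩
    have hp1 : ∀ p : ι × Bool, p.1 ∈ A' → p ≠ (x, b) → σ p ≠ (y, c) := by
      intro p hp hpx h
      have h2 := hσ p (hne p hp).1
      rw [h, hyc] at h2
      exact hpx h2.symm
    have hp2 : ∀ p : ι × Bool, p.1 ∈ A' → σ p ≠ (x, b) := by
      intro p hp h
      have h2 := hσ p (hne p hp).1
      rw [h, hl] at h2
      exact (hne p hp).2 (congrArg Prod.fst h2).symm
    have hcard' : A'.card = n := by
      rw [hA', Finset.card_erase_of_mem hy, hcard]
      rfl
    obtain ⟨s', h1, h2, h3⟩ := ih A' hcard' σ' (Function.update R x (chainFl b K))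
      (Function.update B x true) (Function.update C (x, b) (C (y, !c)))
      (by
        intro p hp
        by_cases hpx : p = (x, b)
        · subst hpx
          by_cases hf : σ (y, !c) = (y, !c)
          · rw [e1 hf]
            exact hxA'
          · rw [e2 hf]
            refine Finset.mem_erase.mpr ⟨fun h => ?_, hA _ hy⟩
            rcases hport _ h with h' | h'
            · exact hq2 h'
            · exact hf h'
        · by_cases hf : σ p = (y, !c)
          · rw [e3 p hpx hf]
            exact hxA'
          · rw [e4 p hpx hf]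
            refine Finset.mem_erase.mpr ⟨fun h => ?_, hA _ (hne p hp).1⟩
            rcases hport _ h with h' | h'
            · exact hp1 p hp hpx h'
            · exact hf h')
      (by
        intro p hp
        by_cases hpx : p = (x, b)
        · subst hpx
          by_cases hf : σ (y, !c) = (y, !c)
          · rw [e1 hf, e1 hf]
          · rw [e2 hf]
            exact e3 _ hq1 (hσ _ hy)
        · by_cases hf : σ p = (y, !c)
          · rw [e3 p hpx hf]
            have h4 : σ (y, !c) = p := by
              have := hσ p (hne p hp).1
              rwa [hf] at this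
            have h5 : σ (y, !c) ≠ (y, !c) := by
              rw [h4]
              intro h
              exact (hne p hp).2 (by rw [h])
            rw [e2 h5, h4]
          · rw [e4 p hpx hf]
            have h4 : σ (σ p) = p := hσ p (hne p hp).1
            rw [e4 (σ p) (hp2 p hp) (by
              rw [h4]
              intro h
              exact (hne p hp).2 (by rw [h])), h4])
      (by
        intro z hz
        by_cases hzx : z = x
        · subst hzx
          simp only [Function.update_self]
          exact chainFl_wr b (WR.comp (chainFl_wr b (hR _ hx)) (chainFl_wr (!c) (hR y hy)))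
        · rw [Function.update_of_ne hzx, Function.update_of_ne hzx]
          exact hR z (Finset.mem_erase.mp hz).2)
      (by
        intro z hz d hd
        by_cases hzx : z = x
        · subst hzx
          simp
        · rw [Function.update_of_ne hzx]
          have hzb : ((z, d) : ι × Bool) ≠ (x, b) := fun h => hzx (congrArg Prod.fst h)
          by_cases hf : σ (z, d) = (y, !c)
          · rw [e3 _ hzb hf] at hd
            exact absurd (congrArg Prod.fst hd).symm hzx
          · rw [e4 _ hzb hf] at hd
            exact hB z (Finset.mem_erase.mp hz).2 d hd)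
    -- the intermediate states
    have hKx : K (s' (x, !b)) (s' (x, b)) := by
      have h4 := h1 x hxA'
      rw [Function.update_self] at h4
      exact chainFl_fl b K x s' h4
    obtain ⟨u, v, hu, huv, hv⟩ := hKx
    set s : ι × Bool → St := fun p => if p = (y, c) then v else if p = (y, !c) then s' (x, b)
      else if p = (x, b) then u else s' p with hs
    have s1 : s (y, c) = v := by simp [hs]
    have s2 : s (y, !c) = s' (x, b) := by simp [hs, hcc]
    have s3 : s (x, b) = u := by simp [hs, hxy]
    have s4 : ∀ p : ι × Bool, p ≠ (y, c) → p ≠ (y, !c) → p ≠ (x, b) → s p = s' p := by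
      intro p h h' h''
      simp [hs, h, h', h'']
    have hny : ∀ p : ι × Bool, p.1 ≠ y → p ≠ (y, c) ∧ p ≠ (y, !c) := fun p hp =>
      ⟨fun h => hp (by rw [h]), fun h => hp (by rw [h])⟩
    refine ⟨s, ?_, ?_, ?_⟩
    · intro z hz
      by_cases hzy : z = y
      · subst hzy
        clear_value s
        cases c
        · simp only [Bool.not_false] at s2 hv
          rw [s1, s2]
          exact hv
        · simp only [Bool.not_true] at s2 hv
          rw [s1, s2]
          exact hv
      · by_cases hzx : z = x
        · subst hzx
          have s5 : s (z, !b) = s' (z, !b) := by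
            refine s4 _ (hny _ hzy).1 (hny _ hzy).2 ?_
            cases b <;> simp
          clear_value s
          cases b
          · simp only [Bool.not_false] at s5 hu
            rw [s3, s5]
            exact hu
          · simp only [Bool.not_true] at s5 hu
            rw [s3, s5]
            exact hu
        · have h4 := h1 z (Finset.mem_erase.mpr ⟨hzy, hz⟩)
          rw [Function.update_of_ne hzx] at h4
          rw [s4 (z, false) (hny _ hzy).1 (hny _ hzy).2 (fun h => hzx (congrArg Prod.fst h)),
            s4 (z, true) (hny _ hzy).1 (hny _ hzy).2 (fun h => hzx (congrArg Prod.fst h))]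
          exact h4
    · intro p hp hpne
      by_cases hpx : p = (x, b)
      · subst hpx
        rw [hl, s3, s1]
        exact huv
      by_cases hpy : p.1 = y
      · rcases hport p hpy with h | h
        · subst h
          rw [hyc, s3, s1]
          exact huv.symm
        · subst h
          have hqy : (σ (y, !c)).1 ≠ y := by
            intro h
            rcases hport _ h with h' | h'
            · exact hq2 h'
            · exact hpne h'
          rw [s2, s4 (σ (y, !c)) hq2 hpne hq1]
          have h4 := h2 (x, b) hxA' (by rw [e2 hpne]; exact hq1)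
          rw [e2 hpne] at h4
          exact h4
      · have hpA' : p.1 ∈ A' := Finset.mem_erase.mpr ⟨hpy, hp⟩
        rw [s4 p (hny p hpy).1 (hny p hpy).2 hpx]
        by_cases hf : σ p = (y, !c)
        · have h4 := h2 p hpA' (by rw [e3 p hpx hf]; exact fun h => hpx h.symm)
          rw [e3 p hpx hf] at h4
          rw [hf, s2]
          exact h4
        · have h4 := h2 p hpA' (by rw [e4 p hpx hf]; exact hpne)
          rw [e4 p hpx hf] at h4
          rw [s4 (σ p) (hp1 p hpA' hpx) hf (hp2 p hpA')]
          exact h4
    · intro p hp hfix hC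
      have hpx : p ≠ (x, b) := by
        rintro rfl
        rw [hl] at hfix
        exact hxy (congrArg Prod.fst hfix).symm
      by_cases hpy : p.1 = y
      · rcases hport p hpy with h | h
        · subst h
          rw [hyc] at hfix
          exact absurd (congrArg Prod.fst hfix) hxy
        · subst h
          rw [s2]
          refine h3 (x, b) hxA' (e1 hfix) ?_
          rw [Function.update_self]
          exact hC
      · have hpA' : p.1 ∈ A' := Finset.mem_erase.mpr ⟨hpy, hp⟩
        have hf : σ p ≠ (y, !c) := by
          rw [hfix]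
          exact (hny p hpy).2
        rw [s4 p (hny p hpy).1 (hny p hpy).2 hpx]
        refine h3 p hpA' (by rw [e4 p hpx hf]; exact hfix) ?_
        rw [Function.update_of_ne hpx]
        exact hC

end Pool.Agent.helper28.CF
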