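import Pool.Agent.helper28.CF.Defs

/-!
# CF-Cover: a minimal set of links covering all triangles (author: helper59)

`Θ × Fin 3` are the ports of the triangles `t : Θ`, `σ` is the link involution (fixed points: unlinked
ports); a port is never linked to another port of its own triangle.

PROOF.  Take a set `M` with the first two properties (`univ` is one) of least cardinality
(`Finset.exists_minimal..`, `Nat.find`, or `WellFounded.min`).  Suppose `p ∈ M` violates the third: there are
`i ≠ p.2` with `(p.1, i) ∈ M` and `j ≠ (σ p).2` with `((σ p).1, j) ∈ M`.  Let `M' = (M.erase p).erase (σ p)`.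
It is closed under `σ` (if `q ∈ M'` then `σ q ∈ M` and `σ q ≠ p, σ p` because `q ≠ σ p, p`).  It meets every
triangle `t`: if `t = p.1` then `(t, i) ∈ M'`: it is not `p`, and it is not `σ p`, since `(σ p).1 = p.1` would give
`σ p = p` by `h2`, so `(t, i) = p`.  If `t = (σ p).1`, the same with `j`.  For other `t` use any `(t, i) ∈ M`.
`M'` is smaller, a contradiction.
-/

set_option autoImplicit false

namespace Pool.Agent.helper28.CF

private theorem coverAux {Θ : Type} [Fintype Θ] [DecidableEq Θ] (σ : Θ × Fin 3 → Θ × Fin 3)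
    (h1 : ∀ p, σ (σ p) = p) (h2 : ∀ p, (σ p).1 = p.1 → σ p = p) (n : ℕ) :
    ∀ M : Finset (Θ × Fin 3), M.card = n → (∀ p ∈ M, σ p ∈ M) → (∀ t, ∃ i, (t, i) ∈ M) →
    ∃ M : Finset (Θ × Fin 3), (∀ p ∈ M, σ p ∈ M) ∧ (∀ t, ∃ i, (t, i) ∈ M) ∧
      ∀ p ∈ M, (∀ i, (p.1, i) ∈ M → i = p.2) ∨ ∀ i, ((σ p).1, i) ∈ M → i = (σ p).2 := by
  induction n using Nat.strong_induction_on with
  | _ n ih =>
    intro M hn hc ht
    by_cases hgood : ∀ p ∈ M, (∀ i, (p.1, i) ∈ M → i = p.2) ∨
        ∀ i, ((σ p).1, i) ∈ M → i = (σ p).2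
    · exact ⟨M, hc, ht, hgood⟩
    · push Not at hgood
      obtain ⟨p, hp, ⟨i, hi, hip⟩, j, hj, hjp⟩ := hgood
      have hlt : ((M.erase p).erase (σ p)).card < n := by
        have e1 : ((M.erase p).erase (σ p)).card ≤ (M.erase p).card :=
          Finset.card_le_card (Finset.erase_subset _ _)
        have e2 : (M.erase p).card < M.card := Finset.card_erase_lt_of_mem hp
        omega
      refine ih _ hlt ((M.erase p).erase (σ p)) rfl ?_ ?_
      · intro q hq
        rw [Finset.mem_erase, Finset.mem_erase] at hq ⊢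
        refine ⟨fun h => hq.2.1 ?_, fun h => hq.1 ?_, hc q hq.2.2⟩
        · have := congrArg σ h
          rwa [h1, h1] at this
        · rw [← h, h1]
      · intro t
        by_cases htp : t = p.1
        · subst htp
          refine ⟨i, ?_⟩
          rw [Finset.mem_erase, Finset.mem_erase]
          have hne : (p.1, i) ≠ p := fun h => hip (congrArg Prod.snd h)
          refine ⟨fun h => hne ?_, hne, hi⟩
          have h3 : (σ p).1 = p.1 := (congrArg Prod.fst h).symm
          rw [h, h2 p h3]
        · by_cases hts : t = (σ p).1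
          · subst hts
            refine ⟨j, ?_⟩
            rw [Finset.mem_erase, Finset.mem_erase]
            refine ⟨fun h => hjp (congrArg Prod.snd h), fun h => htp ?_, hj⟩
            have h4 := congrArg Prod.fst h
            exact h4
          · obtain ⟨k, hk⟩ := ht t
            refine ⟨k, ?_⟩
            rw [Finset.mem_erase, Finset.mem_erase]
            exact ⟨fun h => hts (congrArg Prod.fst h), fun h => htp (congrArg Prod.fst h), hk⟩

theorem cover {Θ : Type} [Fintype Θ] [DecidableEq Θ] (σ : Θ × Fin 3 → Θ × Fin 3)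
    (h1 : ∀ p, σ (σ p) = p) (h2 : ∀ p, (σ p).1 = p.1 → σ p = p) :
    ∃ M : Finset (Θ × Fin 3), (∀ p ∈ M, σ p ∈ M) ∧ (∀ t, ∃ i, (t, i) ∈ M) ∧
      ∀ p ∈ M, (∀ i, (p.1, i) ∈ M → i = p.2) ∨ ∀ i, ((σ p).1, i) ∈ M → i = (σ p).2 := by
  refine coverAux σ h1 h2 _ Finset.univ rfl (fun p _ => Finset.mem_univ _) fun t => ?_
  exact ⟨0, Finset.mem_univ _⟩

end Pool.Agent.helper28.CF
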