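import Mathlib

/-!
# Project CF (MP_c9bf3e_co, helper28): claw-free cubic graphs have an L(2,1)-labelling with labels 0..7

Definitions.  The whole argument: a graph in which every vertex lies in a triangle and all degrees are
at most three is reduced (removing the components `K4` and the diamonds) to a system of disjoint
triangles `Θ × Fin 3` with links `σ`; a minimal set `M` of links covering all triangles consists of
stars; the labels of the ends of the links in `M` are fixed, and the rest splits into cycles and
paths of triangles which are labelled with a finite automaton.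
-/

set_option autoImplicit false

namespace Pool.Agent.helper28.CF

/-- `a` and `b` differ by at least two. -/
def D2 (a b : ℕ) : Prop := a + 2 ≤ b ∨ b + 2 ≤ a

instance (a b : ℕ) : Decidable (D2 a b) := by unfold D2; infer_instance

theorem D2.symm {a b : ℕ} (h : D2 a b) : D2 b a := Or.symm h

theorem D2.ne {a b : ℕ} (h : D2 a b) : a ≠ b := by
  rintro rfl
  rcases h with h | h <;> omega

/-- The state of a port: its label, and the labels of the two other vertices of its triangle. -/
abbrev St : Type := ℕ × ℕ × ℕ

/-- Compatibility of the states of two linked ports. -/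
def Cp (s t : St) : Prop :=
  D2 s.1 t.1 ∧ s.1 ≠ t.2.1 ∧ s.1 ≠ t.2.2 ∧ t.1 ≠ s.2.1 ∧ t.1 ≠ s.2.2

instance (s t : St) : Decidable (Cp s t) := by unfold Cp; infer_instance

theorem Cp.symm {s t : St} (h : Cp s t) : Cp t s :=
  ⟨h.1.symm, h.2.2.2.1, h.2.2.2.2, h.2.1, h.2.2.1⟩

/-- A labelled triangle `p, m, q`, where `p, q` avoid the label `a`. -/
def Tri (p m q a : ℕ) : Prop :=
  p ≤ 7 ∧ m ≤ 7 ∧ q ≤ 7 ∧ D2 p m ∧ D2 q m ∧ D2 p q ∧ p ≠ a ∧ q ≠ a

instance (p m q a : ℕ) : Decidable (Tri p m q a) := by unfold Tri; infer_instance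

/-- The letters: label `m` of the port in `M`, label `a` of its partner. -/
def Lt (l : ℕ × ℕ) : Prop := l = (0, 7) ∨ l = (7, 0) ∨ l = (0, 5) ∨ l = (0, 2)

/-- The relation of a letter, between the states of the two ports not in `M`. -/
def RL (l : ℕ × ℕ) (s t : St) : Prop := ∃ p q, Tri p l.1 q l.2 ∧ s = (p, l.1, q) ∧ t = (q, l.1, p)

/-- Composition over a link. -/
def Cmp (R R' : St → St → Prop) (s t : St) : Prop := ∃ u v, R s u ∧ Cp u v ∧ R' v t

/-- The relations of words; the boolean is `true` for words with at least two letters. -/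
inductive WR : Bool → (St → St → Prop) → Prop
  | letter (l : ℕ × ℕ) (h : Lt l) : WR false (RL l)
  | comp {b b' : Bool} {R R' : St → St → Prop} (h : WR b R) (h' : WR b' R') : WR true (Cmp R R')

/-- The end of a path at a centre: the centre has the labels `5, 7` and `x ∈ {1, 2, 3}`. -/
def Cap (s : St) : Prop := Cp s (1, 5, 7) ∨ Cp s (2, 5, 7) ∨ Cp s (3, 5, 7)

instance (s : St) : Decidable (Cap s) := by unfold Cap; infer_instance

/-- An L(2,1)-labelling with labels `0..7`. -/
structure Lab {V : Type} (G : SimpleGraph V) (f : V → ℕ) : Prop where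
  le : ∀ v, f v ≤ 7
  adj : ∀ u v, G.Adj u v → D2 (f u) (f v)
  two : ∀ u v w, u ≠ v → G.Adj u w → G.Adj w v → f u ≠ f v

/-- All degrees are at most three and every vertex lies in a triangle. -/
structure Good {V : Type} (G : SimpleGraph V) : Prop where
  /-- four neighbours are not distinct -/
  deg : ∀ v a b c d, G.Adj v a → G.Adj v b → G.Adj v c → G.Adj v d →
    a = b ∨ a = c ∨ a = d ∨ b = c ∨ b = d ∨ c = d
  tri : ∀ v, ∃ a b, G.Adj v a ∧ G.Adj v b ∧ G.Adj a b

end Pool.Agent.helper28.CF
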