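import Pool.Agent.helper28.CF.Ext

/-!
# CF-DiaA: removing a diamond, the graph (author: helper59)

`a, b, c, d` is a diamond: all adjacent except `a, d`.  `DiaW a b c d` is the type of the other vertices, `DiaG` is the graph
on it with an additional edge between the outer neighbour of `a` and the outer neighbour of `d` (if they exist).

PROOFS.  By `Good.deg`: the neighbours of `b` are exactly `a, c, d`, those of `c` exactly `a, b, d`; `a` has at most one
neighbour besides `b, c`, and so has `d`.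
`dia_out`: let `u` be a neighbour of `a` and of `d`, `u ≠ b, c`.  `u` lies in a triangle `u, x, y`.  The neighbours of `u` are
`a`, `d` and at most one more, `w`.  `x ~ y` are two of them.  `a, d` are not adjacent; if `x = a`, `y = w` then `w` is a
neighbour of `a` other than `u`, so `w ∈ {b, c}`, but the neighbours of `b`, `c` are `a, c, d` / `a, b, d`, not `u`.  The same
for `d`.  A contradiction.
`dia_tri`: for `v ∉ {a, b, c, d}` let `v, x, y` be a triangle.  If `x = a`, then `y ~ a`, `y ≠ v`, so `y ∈ {b, c}`, but `v` is not a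
neighbour of `b, c`.  Same for `d`; `x ∈ {b, c}` is impossible.  So the triangle survives.
`dia_good`: degrees: let `v` have neighbours `x1..x4` in `DiaG`.  If `v` is not adjacent (in `G`) to `a` or `d`, all edges at `v` are edges of
`G`: `Good.deg`.  If `v ~ a` then `v` is not adjacent to `d` (`dia_out`), the new edges at `v` all go to the unique outer neighbour of
`d`; apply `Good.deg` in `G` to `v` with the new neighbour replaced by `a` (the function `φ x = if G.Adj v x then x else a` is
injective on the neighbours of `v` in `DiaG`).  Same for `v ~ d`.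
-/

set_option autoImplicit false

namespace Pool.Agent.helper28.CF

variable {V : Type}

/-- The vertices outside the diamond. -/
abbrev DiaW (a b c d : V) : Type := {v : V // v ≠ a ∧ v ≠ b ∧ v ≠ c ∧ v ≠ d}

/-- The neighbours of a vertex with three known neighbours. -/
private theorem diaA_nb {G : SimpleGraph V} (hG : Good G) {b x1 x2 x3 x : V} (h1 : G.Adj b x1)
    (h2 : G.Adj b x2) (h3 : G.Adj b x3) (h12 : x1 ≠ x2) (h13 : x1 ≠ x3) (h23 : x2 ≠ x3)
    (hx : G.Adj b x) : x = x1 ∨ x = x2 ∨ x = x3 := by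
  rcases hG.deg b x1 x2 x3 x h1 h2 h3 hx with h | h | h | h | h | h
  · exact absurd h h12
  · exact absurd h h13
  · exact Or.inl h.symm
  · exact absurd h h23
  · exact Or.inr (Or.inl h.symm)
  · exact Or.inr (Or.inr h.symm)

/-- The outer neighbour is unique. -/
private theorem diaA_outer {G : SimpleGraph V} (hG : Good G) {a b c x y : V} (hab : G.Adj a b)
    (hac : G.Adj a c) (hbc : G.Adj b c) (hx : G.Adj a x) (hy : G.Adj a y) (hxb : x ≠ b)
    (hxc : x ≠ c) (hyb : y ≠ b) (hyc : y ≠ c) : x = y := by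
  rcases hG.deg a b c x y hab hac hx hy with h | h | h | h | h | h
  · exact absurd h hbc.ne
  · exact absurd h.symm hxb
  · exact absurd h.symm hyb
  · exact absurd h.symm hxc
  · exact absurd h.symm hyc
  · exact h

/-- The triangles at a vertex outside the diamond. -/
private theorem diaA_off {G : SimpleGraph V} (hG : Good G) {a b c d : V} (hab : G.Adj a b)
    (hac : G.Adj a c) (hbc : G.Adj b c) (hdb : G.Adj d b) (hdc : G.Adj d c) (had : a ≠ d)
    {u x y : V} (hua : u ≠ a) (hub : u ≠ b) (huc : u ≠ c) (hud : u ≠ d) (hx : G.Adj u x)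
    (hy : G.Adj u y) (hxy : G.Adj x y) : x ≠ a ∧ x ≠ b ∧ x ≠ c ∧ x ≠ d := by
  have hnb : ∀ z, G.Adj u z → z ≠ b := by
    rintro z hz rfl
    rcases diaA_nb hG hab.symm hbc hdb.symm hac.ne had hdc.ne.symm hz.symm with h | h | h
    · exact hua h
    · exact huc h
    · exact hud h
  have hnc : ∀ z, G.Adj u z → z ≠ c := by
    rintro z hz rfl
    rcases diaA_nb hG hac.symm hbc.symm hdc.symm hab.ne had hdb.ne.symm hz.symm with h | h | h
    · exact hua h
    · exact hub h
    · exact hud h
  refine ⟨?_, hnb x hx, hnc x hx, ?_⟩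
  · rintro rfl
    have h := diaA_outer hG hab hac hbc hx.symm hxy hub huc (hnb y hy) (hnc y hy)
    exact hy.ne h
  · rintro rfl
    have h := diaA_outer hG hdb hdc hbc hx.symm hxy hub huc (hnb y hy) (hnc y hy)
    exact hy.ne h

/-- No common outer neighbour. -/
theorem dia_out {G : SimpleGraph V} (hG : Good G) {a b c d : V} (hab : G.Adj a b)
    (hac : G.Adj a c) (hbc : G.Adj b c) (hdb : G.Adj d b) (hdc : G.Adj d c) (had : a ≠ d)
    (hnad : ¬ G.Adj a d) {u : V} (hub : u ≠ b) (huc : u ≠ c) (hua : G.Adj u a) (hud : G.Adj u d) :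
    False := by
  obtain ⟨x, y, hx, hy, hxy⟩ := hG.tri u
  have h1 := diaA_off hG hab hac hbc hdb hdc had hua.ne hub huc hud.ne hx hy hxy
  have h2 := diaA_off hG hab hac hbc hdb hdc had hua.ne hub huc hud.ne hy hx hxy.symm
  rcases hG.deg u a d x y hua hud hx hy with h | h | h | h | h | h
  · exact had h
  · exact h1.1 h.symm
  · exact h2.1 h.symm
  · exact h1.2.2.2 h.symm
  · exact h2.2.2.2 h.symm
  · exact hxy.ne h

/-- The graph without the diamond. -/
def DiaG (G : SimpleGraph V) (a b c d : V)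
    (hout : ∀ u, u ≠ b → u ≠ c → G.Adj u a → G.Adj u d → False) : SimpleGraph (DiaW a b c d) where
  Adj u v := G.Adj u.1 v.1 ∨ (G.Adj u.1 a ∧ G.Adj v.1 d) ∨ (G.Adj u.1 d ∧ G.Adj v.1 a)
  symm := ⟨by
    rintro u v (h | ⟨h, h'⟩ | ⟨h, h'⟩)
    · exact Or.inl h.symm
    · exact Or.inr (Or.inr ⟨h', h⟩)
    · exact Or.inr (Or.inl ⟨h', h⟩)⟩
  loopless := ⟨by
    rintro u (h | ⟨h, h'⟩ | ⟨h, h'⟩)
    · exact G.loopless.irrefl _ h
    · exact hout _ u.2.2.1 u.2.2.2.1 h h'
    · exact hout _ u.2.2.1 u.2.2.2.1 h' h⟩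

theorem dia_tri {G : SimpleGraph V} (hG : Good G) {a b c d : V} (hab : G.Adj a b)
    (hac : G.Adj a c) (hbc : G.Adj b c) (hdb : G.Adj d b) (hdc : G.Adj d c) (had : a ≠ d)
    (hnad : ¬ G.Adj a d) (v : DiaW a b c d) :
    ∃ x y : DiaW a b c d, G.Adj v.1 x.1 ∧ G.Adj v.1 y.1 ∧ G.Adj x.1 y.1 := by
  obtain ⟨x, y, hx, hy, hxy⟩ := hG.tri v.1
  have h1 := diaA_off hG hab hac hbc hdb hdc had v.2.1 v.2.2.1 v.2.2.2.1 v.2.2.2.2 hx hy hxy
  have h2 := diaA_off hG hab hac hbc hdb hdc had v.2.1 v.2.2.1 v.2.2.2.1 v.2.2.2.2 hy hx hxy.symm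
  exact ⟨⟨x, h1⟩, ⟨y, h2⟩, hx, hy, hxy⟩

theorem dia_good {G : SimpleGraph V} (hG : Good G) {a b c d : V} (hab : G.Adj a b)
    (hac : G.Adj a c) (hbc : G.Adj b c) (hdb : G.Adj d b) (hdc : G.Adj d c) (had : a ≠ d)
    (hnad : ¬ G.Adj a d) (hout : ∀ u, u ≠ b → u ≠ c → G.Adj u a → G.Adj u d → False) :
    Good (DiaG G a b c d hout) := by
  classical
  constructor
  · -- a reduction to an injective map into the neighbours in `G`
    have key : ∀ (v : DiaW a b c d) (φ : DiaW a b c d → V),
        (∀ x, (DiaG G a b c d hout).Adj v x → G.Adj v.1 (φ x)) →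
        (∀ x y, (DiaG G a b c d hout).Adj v x → (DiaG G a b c d hout).Adj v y →
          φ x = φ y → x = y) →
        ∀ x1 x2 x3 x4 : DiaW a b c d, (DiaG G a b c d hout).Adj v x1 →
          (DiaG G a b c d hout).Adj v x2 → (DiaG G a b c d hout).Adj v x3 →
          (DiaG G a b c d hout).Adj v x4 →
          x1 = x2 ∨ x1 = x3 ∨ x1 = x4 ∨ x2 = x3 ∨ x2 = x4 ∨ x3 = x4 := by
      intro v φ hφ hinj x1 x2 x3 x4 h1 h2 h3 h4
      rcases hG.deg v.1 (φ x1) (φ x2) (φ x3) (φ x4) (hφ _ h1) (hφ _ h2) (hφ _ h3) (hφ _ h4) with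
        h | h | h | h | h | h
      · exact Or.inl (hinj _ _ h1 h2 h)
      · exact Or.inr (Or.inl (hinj _ _ h1 h3 h))
      · exact Or.inr (Or.inr (Or.inl (hinj _ _ h1 h4 h)))
      · exact Or.inr (Or.inr (Or.inr (Or.inl (hinj _ _ h2 h3 h))))
      · exact Or.inr (Or.inr (Or.inr (Or.inr (Or.inl (hinj _ _ h2 h4 h)))))
      · exact Or.inr (Or.inr (Or.inr (Or.inr (Or.inr (hinj _ _ h3 h4 h)))))
    intro v x1 x2 x3 x4
    by_cases hva : G.Adj v.1 a
    · have hvd : ¬ G.Adj v.1 d := fun h => hout _ v.2.2.1 v.2.2.2.1 hva h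
      have hadj : ∀ x, (DiaG G a b c d hout).Adj v x → ¬ G.Adj v.1 x.1 → G.Adj x.1 d := by
        rintro x (h | ⟨_, h⟩ | ⟨h, _⟩) hn
        · exact absurd h hn
        · exact h
        · exact absurd h hvd
      refine key v (fun x => if G.Adj v.1 x.1 then x.1 else a) (fun x hx => ?_)
        (fun x y hx hy hxy => ?_) x1 x2 x3 x4
      · split_ifs with h
        · exact h
        · exact hva
      · split_ifs at hxy with h h' h'
        · exact Subtype.ext hxy
        · exact absurd hxy x.2.1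
        · exact absurd hxy.symm y.2.1
        · refine Subtype.ext (diaA_outer hG hdb hdc hbc (hadj x hx h).symm (hadj y hy h').symm
            x.2.2.1 x.2.2.2.1 y.2.2.1 y.2.2.2.1)
    · by_cases hvd : G.Adj v.1 d
      · have hadj : ∀ x, (DiaG G a b c d hout).Adj v x → ¬ G.Adj v.1 x.1 → G.Adj x.1 a := by
          rintro x (h | ⟨h, _⟩ | ⟨_, h⟩) hn
          · exact absurd h hn
          · exact absurd h hva
          · exact h
        refine key v (fun x => if G.Adj v.1 x.1 then x.1 else d) (fun x hx => ?_)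
          (fun x y hx hy hxy => ?_) x1 x2 x3 x4
        · split_ifs with h
          · exact h
          · exact hvd
        · split_ifs at hxy with h h' h'
          · exact Subtype.ext hxy
          · exact absurd hxy x.2.2.2.2
          · exact absurd hxy.symm y.2.2.2.2
          · refine Subtype.ext (diaA_outer hG hab hac hbc (hadj x hx h).symm (hadj y hy h').symm
              x.2.2.1 x.2.2.2.1 y.2.2.1 y.2.2.2.1)
      · refine key v (fun x => x.1) (fun x hx => ?_) (fun x y _ _ hxy => Subtype.ext hxy)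
          x1 x2 x3 x4
        rcases hx with h | ⟨h, _⟩ | ⟨h, _⟩
        · exact h
        · exact absurd h hva
        · exact absurd h hvd
  · intro v
    obtain ⟨x, y, hx, hy, hxy⟩ := dia_tri hG hab hac hbc hdb hdc had hnad v
    exact ⟨x, y, Or.inl hx, Or.inl hy, Or.inl hxy⟩

end Pool.Agent.helper28.CF
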