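import Pool.Agent.helper28.CF.DiaA

/-!
# CF-DiaB: removing a diamond, extending the labelling

`dia_ext` is the extension: given a labelling `f` of the smaller graph and labels `α, β, γ, δ` which fit at the outer
neighbours, the labelling extends.  PROOF: define `F v = α, β, γ, δ` for `v = a, b, c, d` and `F v = f v` otherwise.  Adjacent
vertices: both outside: `Lab.adj` (an edge of `G` between outside vertices is an edge of `DiaG`); inside: `DiaL`; one in, one
out: the edge is `u ~ a` or `u ~ d` with `u` outside (the neighbours of `b`, `c` are inside by `Good.deg`): hypothesis `ha` / `hd`.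
Vertices `u ≠ v` with a common neighbour `w`: `w` outside: `u, v` both outside: `Lab.two`; `u = a`, `v` outside: `ha`
(`α ≠ f v` for the other neighbours `v` of `w`); `u = a`, `v = d`: impossible by `hout`, (`w ≠ b, c`); similarly `u = d`.  `w = a`: the
neighbours of `a` are `b, c` and the outer neighbour `u`: `β ≠ γ`, `f u ≠ β, γ` (`ha`).  `w = b`: neighbours `a, c, d`: `DiaL`.
`w = c`, `w = d` similarly.

`dia_step`: `hout` from `dia_out`, `DiaG` is good (`dia_good`) and smaller, so it has a labelling `f`.  Let `u` be the outer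
neighbour of `a` and `u'` that of `d`, if they exist.  `u` lies in a triangle `u, x, y` of outside vertices (`dia_tri`), so the neighbours
of `u` in `G` are `a, x, y` (`Good.deg`); the labels `c = f u`, `p = f x`, `q = f y` differ by at least two pairwise.
* Both exist, not adjacent in `G`: in `DiaG` they are adjacent, and `f u ≠ f x', f y'` (common neighbour `u'`; note `x', y' ≠ u`
  because `u' ≁ u` in `G`), etc.: `Cp (c, p, q) (c', p', q')`; use `ext_link`.
* Both exist and `u ~ u'`: then `u' ∈ {x, y}`, say the triangle is `u, u', z`; the neighbours of `u'` are `d, u, z`; use `ext_same` with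
  `c = f u`, `c' = f u'`, `m = f z`.
* Only one exists: `ext_one` (for `d` by the symmetry of the diamond: swap the roles), none: `ext_none`.
-/

set_option autoImplicit false

namespace Pool.Agent.helper28.CF

variable {V : Type}

private theorem DiaL.swap {α β γ δ : ℕ} (h : DiaL α β γ δ) : DiaL δ β γ α := by
  obtain ⟨h1, h2, h3, h4, h5, h6, h7, h8, h9, h10⟩ := h
  exact ⟨h4, h2, h3, h1, h7, h8, h5, h6, h9, h10.symm⟩

private theorem nb_mid {G : SimpleGraph V} (hG : Good G) {a b c d : V} (hab : G.Adj a b)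
    (hac : G.Adj a c) (hbc : G.Adj b c) (hdb : G.Adj d b) (hdc : G.Adj d c) (had : a ≠ d)
    {u : V} (hu : G.Adj u b) : u = a ∨ u = c ∨ u = d := by
  rcases hG.deg b a c d u hab.symm hbc hdb.symm hu.symm with h | h | h | h | h | h
  · exact absurd h hac.ne
  · exact absurd h had
  · exact Or.inl h.symm
  · exact absurd h hdc.ne'
  · exact Or.inr (Or.inl h.symm)
  · exact Or.inr (Or.inr h.symm)

private theorem nb_uniq {G : SimpleGraph V} (hG : Good G) {a b c : V} (hab : G.Adj a b)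
    (hac : G.Adj a c) (hbc : G.Adj b c) {u v : V} (hu : G.Adj u a) (hv : G.Adj v a)
    (hub : u ≠ b) (huc : u ≠ c) (hvb : v ≠ b) (hvc : v ≠ c) : u = v := by
  rcases hG.deg a b c u v hab hac hu.symm hv.symm with h | h | h | h | h | h
  · exact absurd h hbc.ne
  · exact absurd h.symm hub
  · exact absurd h.symm hvb
  · exact absurd h.symm huc
  · exact absurd h.symm hvc
  · exact h

/-- the hypotheses of `dia_ext` at one end -/
private theorem att_end {G : SimpleGraph V} (hG : Good G) {a b c d e : V}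
    (he : ∀ w : DiaW a b c d, w.1 ≠ e)
    (hun : ∀ w w' : DiaW a b c d, G.Adj w.1 e → G.Adj w'.1 e → w = w')
    {f : DiaW a b c d → ℕ} {u x y : DiaW a b c d} (hu : G.Adj u.1 e) (hx : G.Adj u.1 x.1)
    (hy : G.Adj u.1 y.1) (hxy : G.Adj x.1 y.1) {α β γ : ℕ}
    (hA : Att (f u) (f x) (f y) α β γ) :
    ∀ w : DiaW a b c d, G.Adj w.1 e → D2 (f w) α ∧ f w ≠ β ∧ f w ≠ γ ∧
      ∀ v : DiaW a b c d, G.Adj w.1 v.1 → α ≠ f v := by
  intro w hw
  obtain rfl := hun w u hw hu
  obtain ⟨h1, h2, h3, h4, h5⟩ := hA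
  refine ⟨h1, h4, h5, fun v hv => ?_⟩
  rcases hG.deg w.1 e x.1 y.1 v.1 hu hx hy hv with h | h | h | h | h | h
  · exact absurd h.symm (he x)
  · exact absurd h.symm (he y)
  · exact absurd h.symm (he v)
  · exact absurd h hxy.ne
  · rw [← Subtype.ext h]
    exact h2
  · rw [← Subtype.ext h]
    exact h3

open Classical in
theorem dia_ext {G : SimpleGraph V} (hG : Good G) {a b c d : V} (hab : G.Adj a b)
    (hac : G.Adj a c) (hbc : G.Adj b c) (hdb : G.Adj d b) (hdc : G.Adj d c) (had : a ≠ d)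
    (hnad : ¬ G.Adj a d) (hout : ∀ u, u ≠ b → u ≠ c → G.Adj u a → G.Adj u d → False)
    {f : DiaW a b c d → ℕ} (hf : Lab (DiaG G a b c d hout) f) {α β γ δ : ℕ}
    (hL : DiaL α β γ δ)
    (ha : ∀ u : DiaW a b c d, G.Adj u.1 a → D2 (f u) α ∧ f u ≠ β ∧ f u ≠ γ ∧
      ∀ v : DiaW a b c d, G.Adj u.1 v.1 → α ≠ f v)
    (hd : ∀ u : DiaW a b c d, G.Adj u.1 d → D2 (f u) δ ∧ f u ≠ β ∧ f u ≠ γ ∧
      ∀ v : DiaW a b c d, G.Adj u.1 v.1 → δ ≠ f v) :
    ∃ F : V → ℕ, Lab G F := by
  obtain ⟨lα, lβ, lγ, lδ, hαβ, hαγ, hδβ, hδγ, hβγ, hαδ⟩ := hL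
  have hda : d ≠ a := had.symm
  have hba : b ≠ a := hab.ne'
  have hca : c ≠ a := hac.ne'
  have hcb : c ≠ b := hbc.ne'
  have hdb' : d ≠ b := hdb.ne
  have hdc' : d ≠ c := hdc.ne
  let F : V → ℕ := fun v =>
    if h : v ≠ a ∧ v ≠ b ∧ v ≠ c ∧ v ≠ d then f ⟨v, h⟩
    else if v = a then α else if v = b then β else if v = c then γ else δ
  have Fw : ∀ w : DiaW a b c d, F w.1 = f w := fun w => dif_pos w.2
  have Fa : F a = α := by
    show (if h : a ≠ a ∧ a ≠ b ∧ a ≠ c ∧ a ≠ d then f ⟨a, h⟩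
      else if a = a then α else if a = b then β else if a = c then γ else δ) = α
    rw [dif_neg (by simp), if_pos rfl]
  have Fb : F b = β := by
    show (if h : b ≠ a ∧ b ≠ b ∧ b ≠ c ∧ b ≠ d then f ⟨b, h⟩
      else if b = a then α else if b = b then β else if b = c then γ else δ) = β
    rw [dif_neg (by simp), if_neg hba, if_pos rfl]
  have Fc : F c = γ := by
    show (if h : c ≠ a ∧ c ≠ b ∧ c ≠ c ∧ c ≠ d then f ⟨c, h⟩
      else if c = a then α else if c = b then β else if c = c then γ else δ) = γ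
    rw [dif_neg (by simp), if_neg hca, if_neg hcb, if_pos rfl]
  have Fd : F d = δ := by
    simp only [F]
    rw [dif_neg (by simp), if_neg hda, if_neg hdb', if_neg hdc']
  have cls : ∀ v : V, v = a ∨ v = b ∨ v = c ∨ v = d ∨ ∃ w : DiaW a b c d, w.1 = v := by
    intro v
    by_cases h1 : v = a
    · exact Or.inl h1
    by_cases h2 : v = b
    · exact Or.inr (Or.inl h2)
    by_cases h3 : v = c
    · exact Or.inr (Or.inr (Or.inl h3))
    by_cases h4 : v = d
    · exact Or.inr (Or.inr (Or.inr (Or.inl h4)))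
    exact Or.inr (Or.inr (Or.inr (Or.inr ⟨⟨v, h1, h2, h3, h4⟩, rfl⟩)))
  have Nb : ∀ u, G.Adj u b → u = a ∨ u = c ∨ u = d := fun u hu =>
    nb_mid hG hab hac hbc hdb hdc had hu
  have Nc : ∀ u, G.Adj u c → u = a ∨ u = b ∨ u = d := fun u hu =>
    nb_mid hG hac hab hbc.symm hdc hdb had hu
  have Na : ∀ u, G.Adj u a → u = b ∨ u = c ∨ ∃ w : DiaW a b c d, w.1 = u := by
    intro u hu
    rcases cls u with h | h | h | h | h
    · exact absurd h hu.ne
    · exact Or.inl h
    · exact Or.inr (Or.inl h)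
    · rw [h] at hu
      exact absurd hu.symm hnad
    · exact Or.inr (Or.inr h)
  have Nd : ∀ u, G.Adj u d → u = b ∨ u = c ∨ ∃ w : DiaW a b c d, w.1 = u := by
    intro u hu
    rcases cls u with h | h | h | h | h
    · rw [h] at hu
      exact absurd hu hnad
    · exact Or.inl h
    · exact Or.inr (Or.inl h)
    · exact absurd h hu.ne
    · exact Or.inr (Or.inr h)
  have Nw : ∀ (w : DiaW a b c d) (u : V), G.Adj u w.1 → u = a ∨ u = d ∨
      ∃ w' : DiaW a b c d, w'.1 = u := by
    intro w u hu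
    rcases cls u with h | h | h | h | h
    · exact Or.inl h
    · rw [h] at hu
      rcases Nb _ hu.symm with h' | h' | h'
      · exact absurd h' w.2.1
      · exact absurd h' w.2.2.2.1
      · exact absurd h' w.2.2.2.2
    · rw [h] at hu
      rcases Nc _ hu.symm with h' | h' | h'
      · exact absurd h' w.2.1
      · exact absurd h' w.2.2.1
      · exact absurd h' w.2.2.2.2
    · exact Or.inr (Or.inl h)
    · exact Or.inr (Or.inr h)
  refine ⟨F, ?_, ?_, ?_⟩
  · intro v
    rcases cls v with h | h | h | h | ⟨w, rfl⟩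
    · rw [h, Fa]; exact lα
    · rw [h, Fb]; exact lβ
    · rw [h, Fc]; exact lγ
    · rw [h, Fd]; exact lδ
    · rw [Fw]; exact hf.le w
  · intro u v huv
    rcases cls v with rfl | rfl | rfl | rfl | ⟨w, rfl⟩
    · rcases Na u huv with rfl | rfl | ⟨w, rfl⟩
      · rw [Fa, Fb]; exact hαβ.symm
      · rw [Fa, Fc]; exact hαγ.symm
      · rw [Fa, Fw]; exact (ha w huv).1
    · rcases Nb u huv with rfl | rfl | rfl
      · rw [Fa, Fb]; exact hαβ
      · rw [Fb, Fc]; exact hβγ.symm
      · rw [Fb, Fd]; exact hδβ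
    · rcases Nc u huv with rfl | rfl | rfl
      · rw [Fa, Fc]; exact hαγ
      · rw [Fb, Fc]; exact hβγ
      · rw [Fc, Fd]; exact hδγ
    · rcases Nd u huv with rfl | rfl | ⟨w, rfl⟩
      · rw [Fd, Fb]; exact hδβ.symm
      · rw [Fd, Fc]; exact hδγ.symm
      · rw [Fd, Fw]; exact (hd w huv).1
    · rcases Nw w u huv with rfl | rfl | ⟨w', rfl⟩
      · rw [Fa, Fw]; exact (ha w huv.symm).1.symm
      · rw [Fd, Fw]; exact (hd w huv.symm).1.symm
      · rw [Fw, Fw]; exact hf.adj w' w (Or.inl huv)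
  · intro u v w huv huw hwv
    rcases cls w with rfl | rfl | rfl | rfl | ⟨w, rfl⟩
    · rcases Na u huw with rfl | rfl | ⟨x, rfl⟩ <;> rcases Na v hwv.symm with rfl | rfl | ⟨y, rfl⟩
      · exact absurd rfl huv
      · rw [Fb, Fc]; exact hβγ.ne
      · rw [Fb, Fw]; exact (ha y hwv.symm).2.1.symm
      · rw [Fb, Fc]; exact hβγ.ne.symm
      · exact absurd rfl huv
      · rw [Fc, Fw]; exact (ha y hwv.symm).2.2.1.symm
      · rw [Fb, Fw]; exact (ha x huw).2.1
      · rw [Fc, Fw]; exact (ha x huw).2.2.1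
      · exact absurd (nb_uniq hG hab hac hbc huw hwv.symm x.2.2.1 x.2.2.2.1 y.2.2.1 y.2.2.2.1) huv
    · rcases Nb u huw with rfl | rfl | rfl <;> rcases Nb v hwv.symm with rfl | rfl | rfl
      · exact absurd rfl huv
      · rw [Fa, Fc]; exact hαγ.ne
      · rw [Fa, Fd]; exact hαδ
      · rw [Fa, Fc]; exact hαγ.ne.symm
      · exact absurd rfl huv
      · rw [Fc, Fd]; exact hδγ.ne.symm
      · rw [Fa, Fd]; exact hαδ.symm
      · rw [Fc, Fd]; exact hδγ.ne
      · exact absurd rfl huv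
    · rcases Nc u huw with rfl | rfl | rfl <;> rcases Nc v hwv.symm with rfl | rfl | rfl
      · exact absurd rfl huv
      · rw [Fa, Fb]; exact hαβ.ne
      · rw [Fa, Fd]; exact hαδ
      · rw [Fa, Fb]; exact hαβ.ne.symm
      · exact absurd rfl huv
      · rw [Fb, Fd]; exact hδβ.ne.symm
      · rw [Fa, Fd]; exact hαδ.symm
      · rw [Fb, Fd]; exact hδβ.ne
      · exact absurd rfl huv
    · rcases Nd u huw with rfl | rfl | ⟨x, rfl⟩ <;> rcases Nd v hwv.symm with rfl | rfl | ⟨y, rfl⟩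
      · exact absurd rfl huv
      · rw [Fb, Fc]; exact hβγ.ne
      · rw [Fb, Fw]; exact (hd y hwv.symm).2.1.symm
      · rw [Fb, Fc]; exact hβγ.ne.symm
      · exact absurd rfl huv
      · rw [Fc, Fw]; exact (hd y hwv.symm).2.2.1.symm
      · rw [Fb, Fw]; exact (hd x huw).2.1
      · rw [Fc, Fw]; exact (hd x huw).2.2.1
      · exact absurd (nb_uniq hG hdb hdc hbc huw hwv.symm x.2.2.1 x.2.2.2.1 y.2.2.1 y.2.2.2.1) huv
    · rcases Nw w u huw with rfl | rfl | ⟨x, rfl⟩ <;>
        rcases Nw w v hwv.symm with rfl | rfl | ⟨y, rfl⟩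
      · exact absurd rfl huv
      · exact (hout w.1 w.2.2.1 w.2.2.2.1 huw.symm hwv).elim
      · rw [Fa, Fw]; exact (ha w huw.symm).2.2.2 y hwv
      · exact (hout w.1 w.2.2.1 w.2.2.2.1 hwv huw.symm).elim
      · exact absurd rfl huv
      · rw [Fd, Fw]; exact (hd w huw.symm).2.2.2 y hwv
      · rw [Fa, Fw]; exact ((ha w hwv).2.2.2 x huw.symm).symm
      · rw [Fd, Fw]; exact ((hd w hwv).2.2.2 x huw.symm).symm
      · rw [Fw, Fw]
        exact hf.two x y w (fun h => huv (congrArg Subtype.val h)) (Or.inl huw) (Or.inl hwv)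

theorem dia_step [Fintype V] [DecidableEq V] (G : SimpleGraph V) (hG : Good G)
    {a b c d : V} (hab : G.Adj a b) (hac : G.Adj a c) (hbc : G.Adj b c) (hdb : G.Adj d b)
    (hdc : G.Adj d c) (had : a ≠ d) (hnad : ¬ G.Adj a d)
    (IH : ∀ (W : Type) [Fintype W] [DecidableEq W] (H : SimpleGraph W),
      Fintype.card W < Fintype.card V → Good H → ∃ f, Lab H f) : ∃ f, Lab G f := by
  have hout : ∀ u, u ≠ b → u ≠ c → G.Adj u a → G.Adj u d → False :=
    fun u hub huc hua hud => dia_out hG hab hac hbc hdb hdc had hnad hub huc hua hud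
  have htri := dia_tri hG hab hac hbc hdb hdc had hnad
  obtain ⟨f, hf⟩ := IH (DiaW a b c d) (DiaG G a b c d hout)
    (Fintype.card_subtype_lt (x := a) (fun h => h.1 rfl))
    (dia_good hG hab hac hbc hdb hdc had hnad hout)
  have una : ∀ w w' : DiaW a b c d, G.Adj w.1 a → G.Adj w'.1 a → w = w' := fun w w' h h' =>
    Subtype.ext (nb_uniq hG hab hac hbc h h' w.2.2.1 w.2.2.2.1 w'.2.2.1 w'.2.2.2.1)
  have und : ∀ w w' : DiaW a b c d, G.Adj w.1 d → G.Adj w'.1 d → w = w' := fun w w' h h' =>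
    Subtype.ext (nb_uniq hG hdb hdc hbc h h' w.2.2.1 w.2.2.2.1 w'.2.2.1 w'.2.2.2.1)
  have nea : ∀ w : DiaW a b c d, w.1 ≠ a := fun w => w.2.1
  have ned : ∀ w : DiaW a b c d, w.1 ≠ d := fun w => w.2.2.2.2
  have fadj : ∀ u v : DiaW a b c d, G.Adj u.1 v.1 → D2 (f u) (f v) := fun u v h =>
    hf.adj u v (Or.inl h)
  by_cases h1 : ∃ u : DiaW a b c d, G.Adj u.1 a
  · obtain ⟨u, hu⟩ := h1
    obtain ⟨x, y, hx, hy, hxy⟩ := htri u
    by_cases h2 : ∃ u : DiaW a b c d, G.Adj u.1 d
    · obtain ⟨u', hu'⟩ := h2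
      obtain ⟨x', y', hx', hy', hxy'⟩ := htri u'
      by_cases huu : G.Adj u.1 u'.1
      · have hz : ∃ z : DiaW a b c d, G.Adj u.1 z.1 ∧ G.Adj u'.1 z.1 := by
          rcases hG.deg u.1 a x.1 y.1 u'.1 hu hx hy huu with h | h | h | h | h | h
          · exact absurd h.symm (nea x)
          · exact absurd h.symm (nea y)
          · exact absurd h.symm (nea u')
          · exact absurd h hxy.ne
          · exact ⟨y, hy, by rw [← h]; exact hxy⟩
          · exact ⟨x, hx, by rw [← h]; exact hxy.symm⟩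
        obtain ⟨z, hz1, hz2⟩ := hz
        obtain ⟨α, β, γ, δ, hL, hA, hA'⟩ := ext_same (hf.le u) (hf.le u') (hf.le z)
          (fadj u u' huu) (fadj u z hz1) (fadj u' z hz2)
        exact dia_ext hG hab hac hbc hdb hdc had hnad hout hf hL
          (att_end hG nea una hu huu hz1 hz2 hA)
          (att_end hG ned und hu' huu.symm hz2 hz1 hA')
      · have hd1 : (DiaG G a b c d hout).Adj u u' := Or.inr (Or.inl ⟨hu, hu'⟩)
        have n1 : ∀ v : DiaW a b c d, G.Adj u'.1 v.1 → f u ≠ f v := by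
          intro v hv
          refine hf.two u v u' ?_ hd1 (Or.inl hv)
          rintro rfl
          exact huu hv.symm
        have n2 : ∀ v : DiaW a b c d, G.Adj u.1 v.1 → f u' ≠ f v := by
          intro v hv
          refine hf.two u' v u ?_ hd1.symm (Or.inl hv)
          rintro rfl
          exact huu hv
        obtain ⟨α, β, γ, δ, hL, hA, hA'⟩ := ext_link (hf.le u) (hf.le x) (hf.le y) (hf.le u')
          (hf.le x') (hf.le y') (fadj u x hx) (fadj u y hy) (fadj x y hxy) (fadj u' x' hx')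
          (fadj u' y' hy') (fadj x' y' hxy')
          ⟨hf.adj u u' hd1, n1 x' hx', n1 y' hy', n2 x hx, n2 y hy⟩
        exact dia_ext hG hab hac hbc hdb hdc had hnad hout hf hL
          (att_end hG nea una hu hx hy hxy hA)
          (att_end hG ned und hu' hx' hy' hxy' hA')
    · obtain ⟨α, β, γ, δ, hL, hA⟩ := ext_one (hf.le u) (hf.le x) (hf.le y) (fadj u x hx)
        (fadj u y hy) (fadj x y hxy)
      exact dia_ext hG hab hac hbc hdb hdc had hnad hout hf hL
        (att_end hG nea una hu hx hy hxy hA)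
        (fun w hw => absurd ⟨w, hw⟩ h2)
  · by_cases h2 : ∃ u : DiaW a b c d, G.Adj u.1 d
    · obtain ⟨u', hu'⟩ := h2
      obtain ⟨x', y', hx', hy', hxy'⟩ := htri u'
      obtain ⟨α, β, γ, δ, hL, hA⟩ := ext_one (hf.le u') (hf.le x') (hf.le y')
        (fadj u' x' hx') (fadj u' y' hy') (fadj x' y' hxy')
      exact dia_ext hG hab hac hbc hdb hdc had hnad hout hf hL.swap
        (fun w hw => absurd ⟨w, hw⟩ h1)
        (att_end hG ned und hu' hx' hy' hxy' hA)
    · exact dia_ext hG hab hac hbc hdb hdc had hnad hout hf ext_none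
        (fun w hw => absurd ⟨w, hw⟩ h1) (fun w hw => absurd ⟨w, hw⟩ h2)

end Pool.Agent.helper28.CF
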