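import Pool.Agent.helper28.CF.Defs

/-!
# CF-Ext: labels of a diamond between given states

A diamond has the vertices `a, b, c, d` (all adjacent except `a, d`) with labels `α, β, γ, δ`.
`Att c p q α β γ`: the vertex `a` (label `α`, the others `β, γ`) is attached to a vertex with label `c` whose other
neighbours have the labels `p, q`.

PROOF.  Finite: write a Boolean check over the labels `0..7` (lists `List.range 8`, `List.any`, `List.all`), prove it with
`by decide` / `decide +kernel` (kernel evaluation: use `Nat.ble`, `Nat.beq`, `Bool` functions, at most some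
100000 steps) and deduce the statements; or give explicit witnesses by cases.  Verified numerically.
`ext_one` follows from `ext_same` or is checked separately, `ext_none`: `0, 2, 4, 6`.  It can help to use the symmetry
`x ↦ 7 - x` and the freedom to choose `β < γ`; only 60 states `(c; {p, q})` with `p < q` are relevant.
-/

set_option autoImplicit false

namespace Pool.Agent.helper28.CF

/-- The labels of a diamond. -/
def DiaL (α β γ δ : ℕ) : Prop :=
  α ≤ 7 ∧ β ≤ 7 ∧ γ ≤ 7 ∧ δ ≤ 7 ∧ D2 α β ∧ D2 α γ ∧ D2 δ β ∧ D2 δ γ ∧ D2 β γ ∧ α ≠ δ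

/-- A port with label `α` and companions `β, γ` attached to a vertex with label `c` whose other two
neighbours have the labels `p, q`. -/
def Att (c p q α β γ : ℕ) : Prop := D2 c α ∧ α ≠ p ∧ α ≠ q ∧ c ≠ β ∧ c ≠ γ

private def d2b (a b : ℕ) : Bool := Nat.ble (a + 2) b || Nat.ble (b + 2) a

private theorem d2b_iff (a b : ℕ) : d2b a b = true ↔ D2 a b := by
  simp [d2b, D2]

private def neb (a b : ℕ) : Bool := ! Nat.beq a b

private theorem neb_iff (a b : ℕ) : neb a b = true ↔ a ≠ b := by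
  rw [neb, Bool.not_eq_true', ← Bool.not_eq_true, Nat.beq_eq]

private def attb (c p q α β γ : ℕ) : Bool :=
  d2b c α && neb α p && neb α q && neb c β && neb c γ

private theorem attb_iff (c p q α β γ : ℕ) : attb c p q α β γ = true ↔ Att c p q α β γ := by
  simp only [attb, Bool.and_eq_true, d2b_iff, neb_iff, Att, and_assoc]

private def diab (w : ℕ × ℕ × ℕ × ℕ) : Bool :=
  Nat.ble w.1 7 && Nat.ble w.2.1 7 && Nat.ble w.2.2.1 7 && Nat.ble w.2.2.2 7 &&
    d2b w.1 w.2.1 && d2b w.1 w.2.2.1 && d2b w.2.2.2 w.2.1 && d2b w.2.2.2 w.2.2.1 &&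
    d2b w.2.1 w.2.2.1 && neb w.1 w.2.2.2

private theorem diab_iff (w : ℕ × ℕ × ℕ × ℕ) :
    diab w = true ↔ DiaL w.1 w.2.1 w.2.2.1 w.2.2.2 := by
  simp only [diab, Bool.and_eq_true, d2b_iff, neb_iff, DiaL, and_assoc, Nat.ble_eq]

private def wit : List (ℕ × ℕ × ℕ × ℕ) :=
  [(0, 2, 5, 7), (7, 2, 5, 0), (0, 3, 7, 5), (5, 3, 7, 0), (2, 0, 4, 7), (7, 0, 4, 2),
    (0, 5, 7, 2), (3, 5, 7, 0), (5, 0, 2, 7), (7, 0, 2, 4), (2, 0, 7, 4), (3, 0, 7, 5),
    (4, 0, 7, 2), (5, 0, 7, 3), (1, 5, 7, 3), (4, 0, 2, 7), (2, 4, 6, 0), (0, 2, 4, 6),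
    (2, 5, 7, 0), (3, 0, 7, 4), (7, 0, 2, 5), (0, 3, 6, 1)]

private def wit2 : List (ℕ × ℕ × ℕ × ℕ) :=
  [(1, 4, 6, 2), (6, 1, 3, 5), (0, 2, 4, 6), (3, 1, 5, 7), (4, 1, 6, 3), (5, 3, 7, 1),
    (6, 2, 4, 0), (3, 1, 6, 4), (4, 2, 7, 5), (7, 0, 5, 2), (5, 0, 2, 6), (0, 2, 7, 5),
    (1, 3, 5, 0), (2, 4, 6, 1), (1, 3, 5, 7)]

private theorem wit_dia : ∀ w ∈ wit, DiaL w.1 w.2.1 w.2.2.1 w.2.2.2 := by
  have h : wit.all diab = true := by decide +kernel
  intro w hw
  exact (diab_iff w).1 (List.all_eq_true.1 h w hw)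

private theorem wit2_dia : ∀ w ∈ wit2, DiaL w.1 w.2.1 w.2.2.1 w.2.2.2 := by
  have h : wit2.all diab = true := by decide +kernel
  intro w hw
  exact (diab_iff w).1 (List.all_eq_true.1 h w hw)

private def cpb (c p q c' p' q' : ℕ) : Bool :=
  d2b c c' && neb c p' && neb c q' && neb c' p && neb c' q

/-- `b` implies `c`. -/
private def impb (b c : Bool) : Bool := match b with
  | true => c
  | false => true

private theorem impb_mp {b c : Bool} (h : impb b c = true) (hb : b = true) : c = true := by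
  subst hb; exact h

private def stb (c p q : ℕ) : Bool := d2b c p && d2b c q && d2b p q

private def range8 : List ℕ := [0, 1, 2, 3, 4, 5, 6, 7]

private theorem mem8 {c : ℕ} (hc : c ≤ 7) : c ∈ range8 := by
  interval_cases c <;> simp [range8]

private def chk : Bool :=
  range8.all fun c => range8.all fun p => range8.all fun q => impb (stb c p q)
    (range8.all fun c' => impb (d2b c c') (range8.all fun p' => range8.all fun q' =>
      impb (stb c' p' q') (impb (cpb c p q c' p' q')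
        (wit.any fun w => attb c p q w.1 w.2.1 w.2.2.1 && attb c' p' q' w.2.2.2 w.2.1 w.2.2.1))))

private def chk2 : Bool :=
  range8.all fun c => range8.all fun c' => range8.all fun m => impb (stb c c' m)
    (wit2.any fun w => attb c c' m w.1 w.2.1 w.2.2.1 && attb c' c m w.2.2.2 w.2.1 w.2.2.1)

set_option maxRecDepth 100000 in
private theorem chk_eq : chk = true := by decide +kernel

private theorem chk2_eq : chk2 = true := by decide +kernel

/-- Both ends attached to vertices which could be linked directly. -/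
theorem ext_link {c p q c' p' q' : ℕ} (hc : c ≤ 7) (hp : p ≤ 7) (hq : q ≤ 7) (hc' : c' ≤ 7)
    (hp' : p' ≤ 7) (hq' : q' ≤ 7) (h1 : D2 c p) (h2 : D2 c q) (h3 : D2 p q) (h1' : D2 c' p')
    (h2' : D2 c' q') (h3' : D2 p' q') (h : Cp (c, p, q) (c', p', q')) :
    ∃ α β γ δ, DiaL α β γ δ ∧ Att c p q α β γ ∧ Att c' p' q' δ β γ := by
  have k := chk_eq
  simp only [chk] at k
  have k1 := List.all_eq_true.1 (List.all_eq_true.1 (List.all_eq_true.1 k c (mem8 hc)) p (mem8 hp))
    q (mem8 hq)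
  have s1 : stb c p q = true := by
    simp only [stb, Bool.and_eq_true, d2b_iff]; exact ⟨⟨h1, h2⟩, h3⟩
  have s2 : stb c' p' q' = true := by
    simp only [stb, Bool.and_eq_true, d2b_iff]; exact ⟨⟨h1', h2'⟩, h3'⟩
  obtain ⟨g1, g2, g3, g4, g5⟩ := h
  have s3 : cpb c p q c' p' q' = true := by
    simp only [cpb, Bool.and_eq_true, d2b_iff, neb_iff]
    exact ⟨⟨⟨⟨g1, g2⟩, g3⟩, g4⟩, g5⟩
  have k2 := impb_mp (List.all_eq_true.1 (impb_mp k1 s1) c' (mem8 hc')) ((d2b_iff _ _).2 g1)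
  have k3 := List.all_eq_true.1 (List.all_eq_true.1 k2 p' (mem8 hp')) q' (mem8 hq')
  have k4 := impb_mp (impb_mp k3 s2) s3
  obtain ⟨w, hw, hw2⟩ := List.any_eq_true.1 k4
  simp only [Bool.and_eq_true, attb_iff] at hw2
  exact ⟨w.1, w.2.1, w.2.2.1, w.2.2.2, wit_dia w hw, hw2.1, hw2.2⟩

/-- Both ends attached to the same triangle. -/
theorem ext_same {c c' m : ℕ} (hc : c ≤ 7) (hc' : c' ≤ 7) (hm : m ≤ 7) (h1 : D2 c c')
    (h2 : D2 c m) (h3 : D2 c' m) :
    ∃ α β γ δ, DiaL α β γ δ ∧ Att c c' m α β γ ∧ Att c' c m δ β γ := by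
  have k := chk2_eq
  simp only [chk2] at k
  have k1 := List.all_eq_true.1 (List.all_eq_true.1 (List.all_eq_true.1 k c (mem8 hc)) c'
    (mem8 hc')) m (mem8 hm)
  have s1 : stb c c' m = true := by
    simp only [stb, Bool.and_eq_true, d2b_iff]; exact ⟨⟨h1, h2⟩, h3⟩
  obtain ⟨w, hw, hw2⟩ := List.any_eq_true.1 (impb_mp k1 s1)
  simp only [Bool.and_eq_true, attb_iff] at hw2
  exact ⟨w.1, w.2.1, w.2.2.1, w.2.2.2, wit2_dia w hw, hw2.1, hw2.2⟩

/-- One end attached. -/
theorem ext_one {c p q : ℕ} (hc : c ≤ 7) (hp : p ≤ 7) (hq : q ≤ 7) (h1 : D2 c p) (h2 : D2 c q)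
    (h3 : D2 p q) : ∃ α β γ δ, DiaL α β γ δ ∧ Att c p q α β γ := by
  obtain ⟨α, β, γ, δ, h, h', _⟩ := ext_same hc hp hq h1 h2 h3
  exact ⟨α, β, γ, δ, h, h'⟩

theorem ext_none : DiaL 0 2 4 6 := by
  unfold DiaL
  decide

end Pool.Agent.helper28.CF
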