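import Pool.Agent.helper28.CF.Defs

/-!
# CF-K4: removing a component `K4`

PROOF.  `a, b, c, d` are pairwise adjacent, so by `Good.deg` they have no other neighbours.  Let
`W = {v // v ≠ a ∧ v ≠ b ∧ v ≠ c ∧ v ≠ d}`, `H = G.comap Subtype.val` (or `G.induce`).  `card W < card V`.  `H` is good: degrees are
obvious; a triangle of a vertex `v ∈ W` does not contain `a, b, c, d` (all neighbours of these are among them).
Extend the labelling of `H` by `0, 2, 4, 6`.
-/

set_option autoImplicit false

namespace Pool.Agent.helper28.CF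

theorem k4_step {V : Type} [Fintype V] [DecidableEq V] (G : SimpleGraph V) (hG : Good G)
    {a b c d : V} (hab : G.Adj a b) (hac : G.Adj a c) (had : G.Adj a d) (hbc : G.Adj b c)
    (hbd : G.Adj b d) (hcd : G.Adj c d)
    (IH : ∀ (W : Type) [Fintype W] [DecidableEq W] (H : SimpleGraph W),
      Fintype.card W < Fintype.card V → Good H → ∃ f, Lab H f) : ∃ f, Lab G f := by
  classical
  -- the four vertices have no other neighbours
  have nb : ∀ x y, (x = a ∨ x = b ∨ x = c ∨ x = d) → G.Adj x y →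
      (y = a ∨ y = b ∨ y = c ∨ y = d) := by
    have aux : ∀ x p q r y, G.Adj x p → G.Adj x q → G.Adj x r → p ≠ q → p ≠ r → q ≠ r →
        G.Adj x y → (y = p ∨ y = q ∨ y = r) := by
      intro x p q r y hp hq hr hpq hpr hqr hy
      rcases hG.deg x p q r y hp hq hr hy with h | h | h | h | h | h
      · exact absurd h hpq
      · exact absurd h hpr
      · exact Or.inl h.symm
      · exact absurd h hqr
      · exact Or.inr (Or.inl h.symm)
      · exact Or.inr (Or.inr h.symm)
    rintro x y (rfl | rfl | rfl | rfl) hxy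
    · have := aux x b c d y hab hac had hbc.ne hbd.ne hcd.ne hxy
      tauto
    · have := aux x a c d y hab.symm hbc hbd hac.ne had.ne hcd.ne hxy
      tauto
    · have := aux x a b d y hac.symm hbc.symm hcd hab.ne had.ne hbd.ne hxy
      tauto
    · have := aux x a b c y had.symm hbd.symm hcd.symm hab.ne hac.ne hbc.ne hxy
      tauto
  -- the other vertices
  let W : Type := {v : V // ¬ (v = a ∨ v = b ∨ v = c ∨ v = d)}
  let H : SimpleGraph W := G.comap Subtype.val
  have hcard : Fintype.card W < Fintype.card V :=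
    Fintype.card_subtype_lt (x := a) (fun h => h (Or.inl rfl))
  have hH : Good H := by
    refine ⟨?_, ?_⟩
    · intro v p q r t hp hq hr ht
      have := hG.deg v.1 p.1 q.1 r.1 t.1 hp hq hr ht
      rcases this with h | h | h | h | h | h
      · exact Or.inl (Subtype.ext h)
      · exact Or.inr (Or.inl (Subtype.ext h))
      · exact Or.inr (Or.inr (Or.inl (Subtype.ext h)))
      · exact Or.inr (Or.inr (Or.inr (Or.inl (Subtype.ext h))))
      · exact Or.inr (Or.inr (Or.inr (Or.inr (Or.inl (Subtype.ext h)))))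
      · exact Or.inr (Or.inr (Or.inr (Or.inr (Or.inr (Subtype.ext h)))))
    · intro v
      obtain ⟨x, y, hx, hy, hxy⟩ := hG.tri v.1
      exact ⟨⟨x, fun h => v.2 (nb x v.1 h hx.symm)⟩, ⟨y, fun h => v.2 (nb y v.1 h hy.symm)⟩,
        hx, hy, hxy⟩
  obtain ⟨f, hf⟩ := IH W H hcard hH
  -- the labelling
  let F : V → ℕ := fun v => if h : (v = a ∨ v = b ∨ v = c ∨ v = d) then
    (if v = a then 0 else if v = b then 2 else if v = c then 4 else 6) else f ⟨v, h⟩
  have Fa : F a = 0 := by simp [F]
  have Fb : F b = 2 := by simp [F, hab.ne']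
  have Fc : F c = 4 := by simp [F, hac.ne', hbc.ne']
  have Fd : F d = 6 := by simp [F, had.ne', hbd.ne', hcd.ne']
  have Fw : ∀ v (h : ¬ (v = a ∨ v = b ∨ v = c ∨ v = d)), F v = f ⟨v, h⟩ := fun v h => by
    simp only [F]
    rw [dif_neg h]
  have hin : ∀ u v, (u = a ∨ u = b ∨ u = c ∨ u = d) → (v = a ∨ v = b ∨ v = c ∨ v = d) →
      u ≠ v → D2 (F u) (F v) := by
    rintro u v (rfl | rfl | rfl | rfl) (rfl | rfl | rfl | rfl) huv <;>
      first
        | exact absurd rfl huv
        | (simp only [Fa, Fb, Fc, Fd]; decide)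
  refine ⟨F, ?_, ?_, ?_⟩
  · intro v
    by_cases h : v = a ∨ v = b ∨ v = c ∨ v = d
    · rcases h with rfl | rfl | rfl | rfl
      · rw [Fa]; omega
      · rw [Fb]; omega
      · rw [Fc]; omega
      · rw [Fd]; omega
    · rw [Fw v h]
      exact hf.le _
  · intro u v huv
    by_cases hu : u = a ∨ u = b ∨ u = c ∨ u = d
    · exact hin u v hu (nb u v hu huv) huv.ne
    · have hv : ¬ (v = a ∨ v = b ∨ v = c ∨ v = d) := fun h => hu (nb v u h huv.symm)
      rw [Fw u hu, Fw v hv]
      exact hf.adj _ _ huv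
  · intro u v w huv huw hwv
    by_cases hw : w = a ∨ w = b ∨ w = c ∨ w = d
    · exact (hin u v (nb w u hw huw.symm) (nb w v hw hwv) huv).ne
    · have hu : ¬ (u = a ∨ u = b ∨ u = c ∨ u = d) := fun h => hw (nb u w h huw)
      have hv : ¬ (v = a ∨ v = b ∨ v = c ∨ v = d) := fun h => hw (nb v w h hwv.symm)
      rw [Fw u hu, Fw v hv]
      exact hf.two ⟨u, hu⟩ ⟨v, hv⟩ ⟨w, hw⟩ (fun h => huv (congrArg Subtype.val h)) huw hwv

end Pool.Agent.helper28.CF
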