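import Pool.Agent.helper28.CF.Tsys
import Pool.Agent.helper28.CF.K4
import Pool.Agent.helper28.CF.DiaB

/-!
# CF-Main (helper28)
-/

set_option autoImplicit false

namespace Pool.Agent.helper28.CF

theorem good_lab (n : ℕ) : ∀ (V : Type) [Fintype V] [DecidableEq V] (G : SimpleGraph V),
    Fintype.card V = n → Good G → ∃ f, Lab G f := by
  induction n using Nat.strong_induction_on with
  | _ n ih =>
    intro V _ _ G hn hG
    have IH : ∀ (W : Type) [Fintype W] [DecidableEq W] (H : SimpleGraph W),
        Fintype.card W < Fintype.card V → Good H → ∃ f, Lab H f := fun W _ _ H hc hH =>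
      ih _ (hn ▸ hc) W H rfl hH
    by_cases huniq : ∀ v a b a' b', G.Adj v a → G.Adj v b → G.Adj a b → G.Adj v a' → G.Adj v b' →
      G.Adj a' b' → (a = a' ∧ b = b') ∨ (a = b' ∧ b = a')
    · exact tsys_step G hG huniq
    · push Not at huniq
      obtain ⟨v, a, b, a', b', h1, h2, h3, h4, h5, h6, h7, h8⟩ := huniq
      -- a fourth vertex adjacent to `v` and to one of `a`, `b`
      have key : ∀ x y z, G.Adj v x → G.Adj v y → G.Adj x y → G.Adj v z → G.Adj x z → y ≠ z →
          ∃ f, Lab G f := by
        intro x y z hx hy hxy hz hxz hyz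
        by_cases hyz' : G.Adj y z
        · exact k4_step G hG hx hy hz hxy hxz hyz' IH
        · exact dia_step G hG (a := y) (b := v) (c := x) (d := z) hy.symm hxy.symm hx hz.symm
            hxz.symm hyz hyz' IH
      by_cases ha : a = a'
      · subst ha
        exact key a b b' h1 h2 h3 h5 h6 (h7 rfl)
      by_cases ha' : a = b'
      · subst ha'
        exact key a b a' h1 h2 h3 h4 h6.symm (h8 rfl)
      by_cases hb : b = a'
      · subst hb
        exact key b a b' h2 h1 h3.symm h5 h6 ha'
      by_cases hb' : b = b'
      · subst hb'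
        exact key b a a' h2 h1 h3.symm h4 h6.symm ha
      rcases hG.deg v a b a' b' h1 h2 h4 h5 with h | h | h | h | h | h
      · exact absurd h h3.ne
      · exact absurd h ha
      · exact absurd h ha'
      · exact absurd h hb
      · exact absurd h hb'
      · exact absurd h h6.ne

end Pool.Agent.helper28.CF
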