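import Pool.Agent.helper28.CF.Chain
import Pool.Agent.helper28.CF.Cover

/-!
# CF-Sys: labelling a system of linked triangles

PROOF.  Let `M` be the set of `cover`.  For a port `p = (t, i)` write `r p = (t, i + 1)`, `rr p = (t, i + 2)`.
`leaf p` means `p ∈ M`, `r p ∉ M`, `rr p ∉ M`.  By `cover`: (F1) every triangle meets `M`, (F2) `p ∈ M` implies
`leaf p ∨ leaf (σ p)`.  `σ` maps `M` to `M` and the complement to the complement (`h1`).  A port `x ∉ M`
is either a port of a leaf triangle (`leaf (r x)` or `leaf (rr x)`) or its triangle is a *centre* with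
`r x ∈ M`, `rr x ∈ M`.

Labels `g` on `M`: if `leaf p`: `g p = 7` if `leaf (σ p)` and `σ p` comes before `p` in some fixed injective enumeration
`e : Θ × Fin 3 → ℕ` (`Fintype.equivFin`, so `e (σ p) < e p`), otherwise `g p = 0`.  If `p ∈ M` is not a leaf:
`g p = 7` if `rr p ∉ M`, `g p = 5` if `r p ∉ M`, and if both are in `M` then `g p = 7, 5, 2` for `p.2 = 0, 1, 2`.
(So in a centre with the port `x ∉ M`: `g (r x) = 7`, `g (rr x) = 5`.)  For a leaf `p` let `a p = g (σ p)` if `σ p ≠ p`, and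
`a p = 7` if `σ p = p`.  Then `Lt (g p, a p)`: if `σ p = p` it is `(0, 7)`; if `leaf (σ p)`, `σ p ≠ p`, it is `(0, 7)` or `(7, 0)` (exactly
one of `p`, `σ p` comes first); if `σ p` is not a leaf, it is `(0, 7)`, `(0, 5)` or `(0, 2)`.

Units for `chain`: `ι = Θ × Fin 3`, `A` = the leaf ports `v`, with the two ports `(v, false) ↦ r v`, `(v, true) ↦ rr v`.
Link `σ'` of `(v, b)`: let `x` be the port, `y = σ x ∉ M`.  If `leaf (rr y)`, i.e. `y = r v'` with `v' = rr y`, then
`σ' (v, b) = (rr y, false)`; if `leaf (r y)`, i.e. `y = rr v'` with `v' = r y`, then `σ' (v, b) = (r y, true)`; otherwise (`y` is a port of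
a centre) `σ' (v, b) = (v, b)`.  (If `σ x = x` this gives `σ' (v, b) = (v, b)` automatically, and `σ' (v, b) = (v, !b)` never happens,
by `h2`; so the hypothesis with `B` is vacuous, take `B = false`.)  `R v = RL (g v, a v)`, `C` everywhere `True`.

From `chain` we get states `s`.  `s (v, false) = (p, g v, q)`, `s (v, true) = (q, g v, p)` with `Tri p (g v) q (a v)`.
Define `f` on a leaf triangle with leaf `v`: `f v = g v`, `f (r v) = (s (v, false)).1`, `f (rr v) = (s (v, true)).1`.  On a centre: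
`f p = g p` for `p ∈ M`; for the port `x ∉ M` of the centre let `y = σ x`: if `y = x`: `f x = 1`; if `y` is the port outside `M` of another centre:
`f x = 1` if `e x < e y`, otherwise `f x = 3`; if `y` is a port of a leaf triangle, with state `s(y)`: by `Cap (s y)` there is a
`k ∈ {1, 2, 3}` with `Cp (s y) (k, 5, 7)`: choose it as `f x`.

Checks.  Inside a leaf triangle: `Tri`.  Inside a centre: `7, 5, k` with `k ≤ 3`, or `7, 5, 2`.  A link `p - σ p` in `M`
(`σ p ≠ p`): leaf and leaf: labels `0` and `7`, the others of the triangle of `p` avoid `a p = g (σ p)`, and vice versa;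
leaf `p` and centre `σ p`: the labels are `0` and `g (σ p) ∈ {7, 5, 2}`, the others in the triangle of `p` avoid `a p = g (σ p)`, and `0` is not a
label of the centre.  A link outside `M`: leaf and leaf: `Cp (s _) (s _)` from `chain`; leaf and centre: `Cp (s y) (k, 5, 7)`; centre
and centre: labels `1, 3`, others `5, 7`.

It may be convenient to first prove the theorem in the form: for every link `p` with `σ p ≠ p`,
`Cp (f p, f (r p), f (rr p)) (f (σ p), f (r (σ p)), f (rr (σ p)))` up to the order of the last two entries.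
-/

set_option autoImplicit false

namespace Pool.Agent.helper28.CF

section

variable {Θ : Type}

/-- The next port of the triangle. -/
private def rt (p : Θ × Fin 3) : Θ × Fin 3 := (p.1, p.2 + 1)

private theorem rt3 (p : Θ × Fin 3) : rt (rt (rt p)) = p := by
  have h : ∀ i : Fin 3, i + 1 + 1 + 1 = i := by decide
  exact Prod.ext rfl (h p.2)

private theorem rt_ne (p : Θ × Fin 3) : rt p ≠ p := by
  intro h
  have h1 : ∀ i : Fin 3, i + 1 ≠ i := by decide
  exact h1 p.2 (congrArg Prod.snd h)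

private theorem rt_cases {p q : Θ × Fin 3} (h : q.1 = p.1) : q = p ∨ q = rt p ∨ q = rt (rt p) := by
  obtain ⟨t, i⟩ := p
  obtain ⟨u, j⟩ := q
  change u = t at h
  subst h
  have h1 : ∀ i j : Fin 3, j = i ∨ j = i + 1 ∨ j = i + 1 + 1 := by decide
  rcases h1 i j with h | h | h
  · exact Or.inl (Prod.ext rfl h)
  · exact Or.inr (Or.inl (Prod.ext rfl h))
  · exact Or.inr (Or.inr (Prod.ext rfl h))

/-- The only port of its triangle in `M`. -/
private def Leaf (M : Finset (Θ × Fin 3)) (p : Θ × Fin 3) : Prop :=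
  p ∈ M ∧ rt p ∉ M ∧ rt (rt p) ∉ M

/-- A port outside `M` of a triangle with a leaf. -/
private def LP (M : Finset (Θ × Fin 3)) (p : Θ × Fin 3) : Prop :=
  Leaf M (rt (rt p)) ∨ Leaf M (rt p)

private theorem LP_notMem {M : Finset (Θ × Fin 3)} {p : Θ × Fin 3} (h : LP M p) : p ∉ M := by
  rcases h with h | h
  · have := h.2.1
    rwa [rt3] at this
  · have := h.2.2
    rwa [rt3] at this

open scoped Classical in
private theorem sys_g [Fintype Θ] (σ : Θ × Fin 3 → Θ × Fin 3) (h1 : ∀ p, σ (σ p) = p)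
    (M : Finset (Θ × Fin 3)) : ∃ g a : Θ × Fin 3 → ℕ,
    (∀ p, Leaf M p → Lt (g p, a p)) ∧ (∀ p, Leaf M p → σ p ≠ p → a p = g (σ p)) ∧
    (∀ p, Leaf M p → ¬ Leaf M (σ p) → g p = 0) ∧
    (∀ p, ¬ Leaf M p → g p = 7 ∨ g p = 5 ∨ g p = 2) ∧
    (∀ p, p ∈ M → rt p ∈ M → rt (rt p) ∉ M → g p = 7) ∧
    (∀ p, p ∈ M → rt p ∉ M → rt (rt p) ∈ M → g p = 5) ∧
    (∀ p, p ∈ M → rt p ∈ M → rt (rt p) ∈ M →
      g p = if p.2 = 0 then 7 else if p.2 = 1 then 5 else 2) := by
  set e : Θ × Fin 3 → ℕ := fun p => (Fintype.equivFin (Θ × Fin 3) p : ℕ) with he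
  have hei : ∀ p q, e p = e q → p = q := fun p q h =>
    (Fintype.equivFin (Θ × Fin 3)).injective (Fin.ext h)
  set g : Θ × Fin 3 → ℕ := fun p =>
    if Leaf M p then (if Leaf M (σ p) ∧ e (σ p) < e p then 7 else 0)
    else if rt (rt p) ∉ M then 7 else if rt p ∉ M then 5
    else if p.2 = 0 then 7 else if p.2 = 1 then 5 else 2 with hg
  have hgL : ∀ p, Leaf M p → g p = if Leaf M (σ p) ∧ e (σ p) < e p then 7 else 0 := by
    intro p hp
    simp only [hg]
    rw [if_pos hp]
  have hgN : ∀ p, ¬ Leaf M p → g p = if rt (rt p) ∉ M then 7 else if rt p ∉ M then 5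
      else if p.2 = 0 then 7 else if p.2 = 1 then 5 else 2 := by
    intro p hp
    simp only [hg]
    rw [if_neg hp]
  have hg3 : ∀ p, ¬ Leaf M p → g p = 7 ∨ g p = 5 ∨ g p = 2 := by
    intro p hp
    rw [hgN p hp]
    split_ifs <;> simp
  refine ⟨g, fun p => if σ p = p then 7 else g (σ p), ?_, ?_, ?_, hg3, ?_, ?_, ?_⟩
  · intro p hp
    change Lt (g p, if σ p = p then 7 else g (σ p))
    by_cases hs : σ p = p
    · rw [if_pos hs, hgL p hp, hs, if_neg (by rintro ⟨-, h⟩; exact lt_irrefl _ h)]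
      exact Or.inl rfl
    · rw [if_neg hs]
      by_cases hl : Leaf M (σ p)
      · rw [hgL p hp, hgL (σ p) hl, h1 p]
        rcases lt_trichotomy (e (σ p)) (e p) with h | h | h
        · rw [if_pos ⟨hl, h⟩, if_neg (by rintro ⟨-, h'⟩; omega)]
          exact Or.inr (Or.inl rfl)
        · exact absurd (hei _ _ h) hs
        · rw [if_neg (by rintro ⟨-, h'⟩; omega), if_pos ⟨hp, h⟩]
          exact Or.inl rfl
      · rw [hgL p hp, if_neg (fun h => hl h.1)]
        rcases hg3 (σ p) hl with h | h | h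
        · rw [h]; exact Or.inl rfl
        · rw [h]; exact Or.inr (Or.inr (Or.inl rfl))
        · rw [h]; exact Or.inr (Or.inr (Or.inr rfl))
  · intro p _ hs
    change (if σ p = p then 7 else g (σ p)) = _
    rw [if_neg hs]
  · intro p hp hl
    rw [hgL p hp, if_neg (fun h => hl h.1)]
  · intro p _ h2 h3
    rw [hgN p (fun h => h.2.1 h2), if_pos h3]
  · intro p _ h2 h3
    rw [hgN p (fun h => h.2.2 h3), if_neg (not_not.2 h3), if_pos h2]
  · intro p _ h2 h3
    rw [hgN p (fun h => h.2.1 h2), if_neg (not_not.2 h3), if_neg (not_not.2 h2)]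

/-- The port outside `M` number `b` of the triangle with the leaf `v`. -/
private def pt (q : (Θ × Fin 3) × Bool) : Θ × Fin 3 := cond q.2 (rt (rt q.1)) (rt q.1)

open scoped Classical in
private noncomputable def enc (M : Finset (Θ × Fin 3)) (x : Θ × Fin 3) : (Θ × Fin 3) × Bool :=
  if Leaf M (rt (rt x)) then (rt (rt x), false) else (rt x, true)

private theorem enc_pt {M : Finset (Θ × Fin 3)} (q : (Θ × Fin 3) × Bool) (hq : Leaf M q.1) :
    enc M (pt q) = q := by
  obtain ⟨v, b⟩ := q
  change Leaf M v at hq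
  cases b with
  | false =>
    change enc M (rt v) = _
    unfold enc
    rw [rt3, if_pos hq]
  | true =>
    change enc M (rt (rt v)) = _
    unfold enc
    rw [if_neg]
    · rw [rt3]
    · rw [rt3]
      intro h
      exact hq.2.1 h.1

private theorem pt_enc (M : Finset (Θ × Fin 3)) (x : Θ × Fin 3) : pt (enc M x) = x := by
  unfold enc
  split_ifs
  · exact rt3 x
  · exact rt3 x

private theorem enc_leaf {M : Finset (Θ × Fin 3)} {x : Θ × Fin 3} (h : LP M x) :
    Leaf M (enc M x).1 := by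
  unfold enc
  by_cases h1 : Leaf M (rt (rt x))
  · rw [if_pos h1]
    exact h1
  · rw [if_neg h1]
    exact h.resolve_left h1

private theorem LP_pt {M : Finset (Θ × Fin 3)} {q : (Θ × Fin 3) × Bool} (hq : Leaf M q.1) :
    LP M (pt q) := by
  obtain ⟨v, b⟩ := q
  change Leaf M v at hq
  cases b with
  | false =>
    left
    change Leaf M (rt (rt (rt v)))
    rwa [rt3]
  | true =>
    right
    change Leaf M (rt (rt (rt v)))
    rwa [rt3]

open scoped Classical in
private theorem sys_s [Fintype Θ] (σ : Θ × Fin 3 → Θ × Fin 3) (h1 : ∀ p, σ (σ p) = p)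
    (h2 : ∀ p, (σ p).1 = p.1 → σ p = p) (M : Finset (Θ × Fin 3)) (g a : Θ × Fin 3 → ℕ)
    (hLt : ∀ p, Leaf M p → Lt (g p, a p)) : ∃ S : Θ × Fin 3 → St,
    (∀ v, Leaf M v → ∃ p q, Tri p (g v) q (a v) ∧ S (rt v) = (p, g v, q) ∧
      S (rt (rt v)) = (q, g v, p)) ∧
    (∀ x, LP M x → LP M (σ x) → σ x ≠ x → Cp (S x) (S (σ x))) ∧
    (∀ x, LP M x → ¬ LP M (σ x) → Cap (S x)) := by
  set σ' : (Θ × Fin 3) × Bool → (Θ × Fin 3) × Bool := fun q =>
    if LP M (σ (pt q)) then enc M (σ (pt q)) else q with hσ'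
  have hA : ∀ v, v ∈ (Finset.univ.filter fun v => Leaf M v) ↔ Leaf M v := by
    intro v
    simp
  have hs1 : ∀ q, LP M (σ (pt q)) → σ' q = enc M (σ (pt q)) := by
    intro q hq
    simp only [hσ']
    rw [if_pos hq]
  have hs2 : ∀ q, ¬ LP M (σ (pt q)) → σ' q = q := by
    intro q hq
    simp only [hσ']
    rw [if_neg hq]
  obtain ⟨s, hs, hcp, hcap⟩ := chain _ (Finset.univ.filter fun v => Leaf M v) rfl σ'
    (fun v => RL (g v, a v)) (fun _ => false) (fun _ => True)
    (by
      intro q hq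
      rw [hA] at hq ⊢
      by_cases h : LP M (σ (pt q))
      · rw [hs1 q h]
        exact enc_leaf h
      · rw [hs2 q h]
        exact hq)
    (by
      intro q hq
      rw [hA] at hq
      by_cases h : LP M (σ (pt q))
      · rw [hs1 q h, hs1 _ (by rw [pt_enc, h1]; exact LP_pt hq), pt_enc, h1]
        exact enc_pt q hq
      · rw [hs2 q h, hs2 q h])
    (by
      intro v hv
      exact WR.letter _ (hLt v ((hA v).1 hv)))
    (by
      intro x hx b hb
      exfalso
      by_cases h : LP M (σ (pt (x, b)))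
      · rw [hs1 _ h] at hb
        have h3 := congrArg pt hb
        rw [pt_enc] at h3
        have h4 : σ (pt (x, b)) = pt (x, b) := by
          apply h2
          rw [h3]
          cases b <;> rfl
        rw [h4] at h3
        cases b with
        | false => exact rt_ne (rt x) h3.symm
        | true => exact rt_ne (rt x) h3
      · rw [hs2 _ h] at hb
        have h3 := congrArg Prod.snd hb
        cases b <;> simp at h3)
  refine ⟨fun x => s (enc M x), ?_, ?_, ?_⟩
  · intro v hv
    obtain ⟨p, q, hT, h3, h4⟩ := hs v ((hA v).2 hv)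
    refine ⟨p, q, hT, ?_, ?_⟩
    · have h5 : enc M (rt v) = (v, false) := enc_pt (v, false) hv
      change s (enc M (rt v)) = _
      rw [h5]
      exact h3
    · have h5 : enc M (rt (rt v)) = (v, true) := enc_pt (v, true) hv
      change s (enc M (rt (rt v))) = _
      rw [h5]
      exact h4
  · intro x hx hy hne
    have h3 : σ' (enc M x) = enc M (σ x) := by
      rw [hs1 _ (by rw [pt_enc]; exact hy), pt_enc]
    have h4 := hcp (enc M x) ((hA _).2 (enc_leaf hx)) (by
      rw [h3]
      intro h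
      have h5 := congrArg pt h
      rw [pt_enc, pt_enc] at h5
      exact hne h5)
    rw [h3] at h4
    exact h4
  · intro x hx hy
    exact hcap (enc M x) ((hA _).2 (enc_leaf hx)) (hs2 _ (by rw [pt_enc]; exact hy)) trivial

/-- The label of the third port of a centre. -/
private def kf (s : St) : ℕ :=
  if Cp s (1, 5, 7) then 1 else if Cp s (2, 5, 7) then 2 else 3

private theorem kf_mem (s : St) : kf s = 1 ∨ kf s = 2 ∨ kf s = 3 := by
  unfold kf
  split_ifs <;> simp

private theorem kf_cap {s : St} (h : Cap s) : Cp s (kf s, 5, 7) := by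
  unfold kf
  split_ifs with h1 h2
  · exact h1
  · exact h2
  · rcases h with h | h | h
    · exact absurd h h1
    · exact absurd h h2
    · exact h

/-- `s` is the state of the port `p`. -/
private def Sto (f : Θ × Fin 3 → ℕ) (p : Θ × Fin 3) (s : St) : Prop :=
  s.1 = f p ∧ ((s.2.1 = f (rt p) ∧ s.2.2 = f (rt (rt p))) ∨
    (s.2.1 = f (rt (rt p)) ∧ s.2.2 = f (rt p)))

private theorem Sto_Cp {f : Θ × Fin 3 → ℕ} {p q : Θ × Fin 3} {s t : St} (hs : Sto f p s)
    (ht : Sto f q t) (h : Cp s t) :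
    D2 (f p) (f q) ∧ f (rt p) ≠ f q ∧ f (rt (rt p)) ≠ f q := by
  obtain ⟨s1, s2, s3⟩ := s
  obtain ⟨t1, t2, t3⟩ := t
  obtain ⟨h1, h2⟩ := hs
  obtain ⟨h3, -⟩ := ht
  obtain ⟨k1, -, -, k2, k3⟩ := h
  simp only at h1 h2 h3 k1 k2 k3
  rw [← h1, ← h3]
  refine ⟨k1, ?_⟩
  rcases h2 with ⟨h4, h5⟩ | ⟨h4, h5⟩
  · rw [← h4, ← h5]
    exact ⟨fun h => k2 h.symm, fun h => k3 h.symm⟩
  · rw [← h4, ← h5]
    exact ⟨fun h => k3 h.symm, fun h => k2 h.symm⟩

/-- The labels of a triangle are good. -/
private def Tg (f : Θ × Fin 3 → ℕ) (p : Θ × Fin 3) : Prop :=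
  D2 (f p) (f (rt p)) ∧ D2 (f (rt p)) (f (rt (rt p))) ∧ D2 (f (rt (rt p))) (f p)

private theorem Tg_rt {f : Θ × Fin 3 → ℕ} {p : Θ × Fin 3} (h : Tg f (rt p)) : Tg f p := by
  obtain ⟨h1, h2, h3⟩ := h
  rw [rt3] at h2 h3
  exact ⟨h3, h1, h2⟩

open scoped Classical in
private theorem sys_main [Fintype Θ] (σ : Θ × Fin 3 → Θ × Fin 3) (h1 : ∀ p, σ (σ p) = p)
    (h2 : ∀ p, (σ p).1 = p.1 → σ p = p) :
    ∃ f : Θ × Fin 3 → ℕ, (∀ p, f p ≤ 7) ∧ (∀ p, Tg f p) ∧
      ∀ p, σ p ≠ p → D2 (f p) (f (σ p)) ∧ f (rt p) ≠ f (σ p) ∧ f (rt (rt p)) ≠ f (σ p) := by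
  obtain ⟨M, hM, hcov, hmin⟩ := cover σ h1 h2
  have hM' : ∀ p, p ∉ M → σ p ∉ M := by
    intro p hp h
    apply hp
    have := hM _ h
    rwa [h1] at this
  have hleafof : ∀ p, p ∈ M → (∀ i, (p.1, i) ∈ M → i = p.2) → Leaf M p := by
    intro p hp h
    refine ⟨hp, ?_, ?_⟩
    · intro h3
      have h4 : ∀ i : Fin 3, i + 1 ≠ i := by decide
      exact h4 _ (h _ h3)
    · intro h3
      have h4 : ∀ i : Fin 3, i + 1 + 1 ≠ i := by decide
      exact h4 _ (h _ h3)
  have hF2 : ∀ p, p ∈ M → Leaf M p ∨ Leaf M (σ p) := by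
    intro p hp
    rcases hmin p hp with h | h
    · exact Or.inl (hleafof p hp h)
    · exact Or.inr (hleafof _ (hM p hp) h)
  have hF1 : ∀ p, p ∈ M ∨ rt p ∈ M ∨ rt (rt p) ∈ M := by
    intro p
    obtain ⟨i, hi⟩ := hcov p.1
    rcases rt_cases (p := p) (q := (p.1, i)) rfl with h | h | h
    · left; rwa [← h]
    · right; left; rwa [← h]
    · right; right; rwa [← h]
  obtain ⟨g, a, hLt, ha, hg0, hg3, hg7, hg5, hgall⟩ := sys_g σ h1 M
  obtain ⟨S, hS, hSc, hScap⟩ := sys_s σ h1 h2 M g a hLt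
  set e : Θ × Fin 3 → ℕ := fun p => (Fintype.equivFin (Θ × Fin 3) p : ℕ) with he
  have hei : ∀ p q, e p = e q → p = q := fun p q h =>
    (Fintype.equivFin (Θ × Fin 3)).injective (Fin.ext h)
  set f : Θ × Fin 3 → ℕ := fun p =>
    if p ∈ M then g p else if LP M p then (S p).1 else if σ p = p then 1
    else if LP M (σ p) then kf (S (σ p)) else if e p < e (σ p) then 1 else 3 with hf
  have hfM : ∀ p, p ∈ M → f p = g p := by
    intro p hp
    simp only [hf]
    rw [if_pos hp]
  have hfL : ∀ p, LP M p → f p = (S p).1 := by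
    intro p hp
    simp only [hf]
    rw [if_neg (LP_notMem hp), if_pos hp]
  have hfC : ∀ p, p ∉ M → ¬ LP M p → f p = if σ p = p then 1
      else if LP M (σ p) then kf (S (σ p)) else if e p < e (σ p) then 1 else 3 := by
    intro p hp hp2
    simp only [hf]
    rw [if_neg hp, if_neg hp2]
  have hfC3 : ∀ p, p ∉ M → ¬ LP M p → f p = 1 ∨ f p = 2 ∨ f p = 3 := by
    intro p hp hp2
    rw [hfC p hp hp2]
    split_ifs
    · simp
    · exact kf_mem _
    · simp
    · simp
  -- a centre
  have hcen : ∀ x, x ∉ M → ¬ LP M x → rt x ∈ M ∧ rt (rt x) ∈ M ∧ f (rt x) = 7 ∧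
      f (rt (rt x)) = 5 := by
    intro x hx hx2
    have hx3 : ¬ Leaf M (rt (rt x)) := fun h => hx2 (Or.inl h)
    have hx4 : ¬ Leaf M (rt x) := fun h => hx2 (Or.inr h)
    have k1 : rt x ∈ M := by
      by_contra h
      rcases hF1 x with h3 | h3 | h3
      · exact hx h3
      · exact h h3
      · exact hx3 ⟨h3, by rw [rt3]; exact hx, by rw [rt3]; exact h⟩
    have k2 : rt (rt x) ∈ M := by
      by_contra h
      exact hx4 ⟨k1, h, by rw [rt3]; exact hx⟩
    refine ⟨k1, k2, ?_, ?_⟩
    · rw [hfM _ k1]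
      exact hg7 _ k1 k2 (by rw [rt3]; exact hx)
    · rw [hfM _ k2]
      exact hg5 _ k2 (by rw [rt3]; exact hx) (by rw [rt3]; exact k1)
  -- a leaf
  have hlf : ∀ v, Leaf M v → f v = g v ∧ Tri (f (rt v)) (g v) (f (rt (rt v))) (a v) ∧
      S (rt v) = (f (rt v), g v, f (rt (rt v))) ∧
      S (rt (rt v)) = (f (rt (rt v)), g v, f (rt v)) := by
    intro v hv
    obtain ⟨p, q, hT, h3, h4⟩ := hS v hv
    have k1 : f (rt v) = p := by
      rw [hfL _ (Or.inl (by rw [rt3]; exact hv)), h3]
    have k2 : f (rt (rt v)) = q := by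
      rw [hfL _ (Or.inr (by rw [rt3]; exact hv)), h4]
    rw [k1, k2]
    exact ⟨hfM v hv.1, hT, h3, h4⟩
  -- the state of a port of a leaf triangle
  have hst : ∀ x, LP M x → Sto f x (S x) := by
    intro x hx
    rcases hx with hx | hx
    · obtain ⟨k0, -, k1, -⟩ := hlf _ hx
      rw [rt3] at k1
      rw [k1]
      exact ⟨rfl, Or.inr ⟨k0.symm, rfl⟩⟩
    · obtain ⟨k0, -, -, k1⟩ := hlf _ hx
      rw [rt3] at k1
      rw [k1]
      exact ⟨rfl, Or.inl ⟨k0.symm, rfl⟩⟩
  have hstC : ∀ x, x ∉ M → ¬ LP M x → Sto f x (f x, 5, 7) := by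
    intro x hx hx2
    obtain ⟨-, -, k1, k2⟩ := hcen x hx hx2
    exact ⟨rfl, Or.inr ⟨k2.symm, k1.symm⟩⟩
  refine ⟨f, ?_, ?_, ?_⟩
  · -- bound
    intro p
    by_cases hp : p ∈ M
    · rw [hfM p hp]
      by_cases hl : Leaf M p
      · rcases hLt p hl with h | h | h | h <;>
          · have h' := (Prod.mk.inj h).1
            omega
      · rcases hg3 p hl with h | h | h <;> omega
    · by_cases hl : LP M p
      · rcases hl with h | h
        · obtain ⟨-, k1, -, -⟩ := hlf _ h
          rw [rt3] at k1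
          exact k1.1
        · obtain ⟨-, k1, -, -⟩ := hlf _ h
          rw [rt3] at k1
          exact k1.2.2.1
      · rcases hfC3 p hp hl with h | h | h <;> omega
  · -- inside the triangles
    have hleaf : ∀ v, Leaf M v → Tg f v := by
      intro v hv
      obtain ⟨k0, k1, -, -⟩ := hlf v hv
      obtain ⟨-, -, -, k2, k3, k4, -, -⟩ := k1
      unfold Tg
      rw [k0]
      exact ⟨k2.symm, k4, k3⟩
    have hcent : ∀ x, x ∉ M → ¬ LP M x → Tg f x := by
      intro x hx hx2
      obtain ⟨-, -, k1, k2⟩ := hcen x hx hx2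
      unfold Tg
      rw [k1, k2]
      rcases hfC3 x hx hx2 with h | h | h <;> · rw [h]; decide
    have hout : ∀ x, x ∉ M → Tg f x := by
      intro x hx
      by_cases h : LP M x
      · rcases h with h | h
        · exact Tg_rt (Tg_rt (hleaf _ h))
        · exact Tg_rt (hleaf _ h)
      · exact hcent x hx h
    intro p
    by_cases h3 : p ∈ M
    · by_cases h4 : rt p ∈ M
      · by_cases h5 : rt (rt p) ∈ M
        · have e1 := hgall p h3 h4 h5
          have e2 := hgall (rt p) h4 h5 (by rw [rt3]; exact h3)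
          have e3 := hgall (rt (rt p)) h5 (by rw [rt3]; exact h3) (by rw [rt3]; exact h4)
          unfold Tg
          rw [hfM _ h3, hfM _ h4, hfM _ h5, e1, e2, e3]
          have h6 : ∀ i : Fin 3,
              D2 (if i = 0 then 7 else if i = 1 then 5 else 2)
                (if i + 1 = 0 then 7 else if i + 1 = 1 then 5 else 2) ∧
              D2 (if i + 1 = 0 then 7 else if i + 1 = 1 then 5 else 2)
                (if i + 1 + 1 = 0 then 7 else if i + 1 + 1 = 1 then 5 else 2) ∧
              D2 (if i + 1 + 1 = 0 then 7 else if i + 1 + 1 = 1 then 5 else 2)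
                (if i = 0 then 7 else if i = 1 then 5 else 2) := by decide
          exact h6 p.2
        · exact Tg_rt (Tg_rt (hout _ h5))
      · exact Tg_rt (hout _ h4)
    · exact hout p h3
  · -- links
    intro p hne
    have hne' : σ (σ p) ≠ σ p := by
      rw [h1]
      exact fun h => hne h.symm
    by_cases hp : p ∈ M
    · have hsp := hM p hp
      rw [hfM _ hp, hfM _ hsp]
      by_cases hl : Leaf M p
      · obtain ⟨-, k1, -, -⟩ := hlf p hl
        have k2 := ha p hl hne
        have k3 := hLt p hl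
        rw [k2] at k1 k3
        refine ⟨?_, k1.2.2.2.2.2.2.1, k1.2.2.2.2.2.2.2⟩
        rcases k3 with h | h | h | h <;>
          · rw [(Prod.mk.inj h).1, (Prod.mk.inj h).2]; decide
      · have hl2 : Leaf M (σ p) := (hF2 p hp).resolve_left hl
        have k1 : g (σ p) = 0 := hg0 _ hl2 (by rw [h1]; exact hl)
        rw [k1]
        refine ⟨?_, ?_, ?_⟩
        · rcases hg3 p hl with h | h | h <;> · rw [h]; decide
        · by_cases h3 : rt p ∈ M
          · rw [hfM _ h3]
            rcases hg3 (rt p) (fun h => h.2.2 (by rw [rt3]; exact hp)) with h | h | h <;>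
              · rw [h]; decide
          · have h4 : ¬ LP M (rt p) := by
              rintro (h | h)
              · rw [rt3] at h
                exact hl h
              · exact h.2.1 (by rw [rt3]; exact hp)
            rcases hfC3 _ h3 h4 with h | h | h <;> · rw [h]; decide
        · by_cases h3 : rt (rt p) ∈ M
          · rw [hfM _ h3]
            rcases hg3 (rt (rt p)) (fun h => h.2.1 (by rw [rt3]; exact hp)) with h | h | h <;>
              · rw [h]; decide
          · have h4 : ¬ LP M (rt (rt p)) := by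
              rintro (h | h)
              · rw [rt3] at h
                exact h.2.2 (by rw [rt3]; exact hp)
              · rw [rt3] at h
                exact hl h
            rcases hfC3 _ h3 h4 with h | h | h <;> · rw [h]; decide
    · have hsp := hM' p hp
      have hone : ∀ x y : Θ × Fin 3, σ x = y → σ y ≠ y → LP M x → y ∉ M → ¬ LP M y →
          Cp (S x) (f y, 5, 7) := by
        intro x y hxy hyn hx hy hy2
        have k1 : f y = kf (S x) := by
          rw [hfC y hy hy2, if_neg hyn, ← hxy, h1, if_pos hx]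
        rw [k1]
        exact kf_cap (hScap x hx (by rw [hxy]; exact hy2))
      by_cases hl : LP M p
      · by_cases hl2 : LP M (σ p)
        · exact Sto_Cp (hst p hl) (hst _ hl2) (hSc p hl hl2 hne)
        · exact Sto_Cp (hst p hl) (hstC _ hsp hl2) (hone p (σ p) rfl hne' hl hsp hl2)
      · by_cases hl2 : LP M (σ p)
        · exact Sto_Cp (hstC p hp hl) (hst _ hl2)
            (hone (σ p) p (h1 p) hne hl2 hp hl).symm
        · refine Sto_Cp (hstC p hp hl) (hstC _ hsp hl2) ?_
          have k1 := hfC p hp hl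
          rw [if_neg hne, if_neg hl2] at k1
          have k2 := hfC (σ p) hsp hl2
          rw [if_neg hne', h1, if_neg hl] at k2
          rw [k1, k2]
          rcases lt_trichotomy (e p) (e (σ p)) with h | h | h
          · rw [if_pos h, if_neg (by omega)]
            decide
          · exact absurd (hei _ _ h).symm hne
          · rw [if_neg (by omega), if_pos h]
            decide

end

theorem tri_system {Θ : Type} [Fintype Θ] [DecidableEq Θ] (σ : Θ × Fin 3 → Θ × Fin 3)
    (h1 : ∀ p, σ (σ p) = p) (h2 : ∀ p, (σ p).1 = p.1 → σ p = p) :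
    ∃ f : Θ × Fin 3 → ℕ, (∀ p, f p ≤ 7) ∧ (∀ t i j, i ≠ j → D2 (f (t, i)) (f (t, j))) ∧
      ∀ p, σ p ≠ p → D2 (f p) (f (σ p)) ∧ ∀ i, f (p.1, i) ≠ f (σ p) := by
  classical
  obtain ⟨f, hf1, hf2, hf3⟩ := sys_main σ h1 h2
  refine ⟨f, hf1, ?_, ?_⟩
  · intro t i j hij
    obtain ⟨k1, k2, k3⟩ := hf2 (t, i)
    rcases rt_cases (p := (t, i)) (q := (t, j)) rfl with h | h | h
    · exact absurd (congrArg Prod.snd h).symm hij
    · rw [h]
      exact k1
    · rw [h]
      exact k3.symm
  · intro p hp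
    obtain ⟨k1, k2, k3⟩ := hf3 p hp
    refine ⟨k1, fun i => ?_⟩
    rcases rt_cases (p := p) (q := (p.1, i)) rfl with h | h | h
    · rw [h]
      exact k1.ne
    · rw [h]
      exact k2
    · rw [h]
      exact k3

end Pool.Agent.helper28.CF
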