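import Pool.Agent.helper28.CF.Sys

/-!
# CF-Tsys: graphs in which every vertex lies in exactly one triangle

PROOF.  Let `Θ = {s : Finset V // s is the set of the vertices of a triangle}` (`∃ x y z, Adj x y, Adj x z, Adj y z, s = {x, y, z}`), a
finite type, with `s.card = 3`; choose for every `s : Θ` a bijection `e s : Fin 3 ≃ s` (`Finset.equivFinOfCardEq`).  The map
`π : Θ × Fin 3 → V`, `(s, i) ↦ e s i`, is a bijection (every vertex lies in exactly one `s`: `huniq`).
Let `E = Equiv.ofBijective π _`.  For `v : V` let `τ v` be the neighbour of `v` outside its triangle if there is one (at most one by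
`Good.deg`), otherwise `τ v = v`.  `τ (τ v) = v`: if `u = τ v ≠ v`, then `v` is a neighbour of `u` and is not in the triangle of
`u` (otherwise the triangle of `u` is a triangle containing `v`, so it is the triangle of `v` and contains `u`), so `τ u = v`.
`σ = E⁻¹ ∘ τ ∘ E` satisfies `h1`, `h2` (if `τ v` is in the triangle of `v` then `τ v = v`).  `tri_system` gives `f`; take `f ∘ E⁻¹`.
Adjacent vertices `u ~ v`: in the same triangle, or `v = τ u`.  Distinct `u, v` with a common neighbour `w`: the neighbours of `w` are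
its two companions and `τ w` (if `≠ w`): two companions: `D2`; a companion and `τ w`: the last property of `tri_system` for `p = E⁻¹ w`.
-/

set_option autoImplicit false

namespace Pool.Agent.helper28.CF

/-- `s` is the vertex set of a triangle. -/
private def IsT {V : Type} [DecidableEq V] (G : SimpleGraph V) (s : Finset V) : Prop :=
  ∃ x y z, G.Adj x y ∧ G.Adj x z ∧ G.Adj y z ∧ s = {x, y, z}

/-- The edge `v u` lies in no triangle. -/
private def Lk {V : Type} (G : SimpleGraph V) (v u : V) : Prop :=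
  G.Adj v u ∧ ∀ w, G.Adj v w → ¬ G.Adj u w

private theorem isT_rep {V : Type} [DecidableEq V] {G : SimpleGraph V} {s : Finset V}
    (h : IsT G s) {v : V} (hv : v ∈ s) :
    ∃ a b, G.Adj v a ∧ G.Adj v b ∧ G.Adj a b ∧ s = {v, a, b} := by
  obtain ⟨x, y, z, hxy, hxz, hyz, rfl⟩ := h
  rw [Finset.mem_insert, Finset.mem_insert, Finset.mem_singleton] at hv
  rcases hv with rfl | rfl | rfl
  · exact ⟨y, z, hxy, hxz, hyz, rfl⟩
  · refine ⟨x, z, hxy.symm, hyz, hxz, ?_⟩
    ext w
    simp only [Finset.mem_insert, Finset.mem_singleton]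
    tauto
  · refine ⟨x, y, hxz.symm, hyz.symm, hxy, ?_⟩
    ext w
    simp only [Finset.mem_insert, Finset.mem_singleton]
    tauto

private theorem isT_card {V : Type} [DecidableEq V] {G : SimpleGraph V} {s : Finset V}
    (h : IsT G s) : s.card = 3 := by
  obtain ⟨x, y, z, hxy, hxz, hyz, rfl⟩ := h
  exact Finset.card_eq_three.2 ⟨x, y, z, hxy.ne, hxz.ne, hyz.ne, rfl⟩

private theorem isT_two {V : Type} [DecidableEq V] {G : SimpleGraph V} {s : Finset V}
    (h : IsT G s) {u v : V} (hu : u ∈ s) (hv : v ∈ s) (huv : u ≠ v) :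
    ∃ w, G.Adj u w ∧ G.Adj v w := by
  obtain ⟨a, b, h1, h2, h3, rfl⟩ := isT_rep h hu
  rw [Finset.mem_insert, Finset.mem_insert, Finset.mem_singleton] at hv
  rcases hv with rfl | rfl | rfl
  · exact absurd rfl huv
  · exact ⟨b, h2, h3⟩
  · exact ⟨a, h1, h3.symm⟩

private theorem isT_uniq {V : Type} [DecidableEq V] {G : SimpleGraph V}
    (huniq : ∀ v a b a' b', G.Adj v a → G.Adj v b → G.Adj a b → G.Adj v a' → G.Adj v b' →
      G.Adj a' b' → (a = a' ∧ b = b') ∨ (a = b' ∧ b = a')) {s t : Finset V}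
    (hs : IsT G s) (ht : IsT G t) {v : V} (h1 : v ∈ s) (h2 : v ∈ t) : s = t := by
  obtain ⟨a, b, q1, q2, q3, rfl⟩ := isT_rep hs h1
  obtain ⟨a', b', p1, p2, p3, rfl⟩ := isT_rep ht h2
  rcases huniq v a b a' b' q1 q2 q3 p1 p2 p3 with ⟨rfl, rfl⟩ | ⟨rfl, rfl⟩
  · rfl
  · ext w
    simp only [Finset.mem_insert, Finset.mem_singleton]
    tauto

private theorem lk_uniq {V : Type} {G : SimpleGraph V} (hG : Good G) {v u u' : V}
    (h : Lk G v u) (h' : Lk G v u') : u = u' := by
  obtain ⟨a, b, hva, hvb, hab⟩ := hG.tri v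
  rcases hG.deg v a b u u' hva hvb h.1 h'.1 with e | e | e | e | e | e
  · exact absurd e hab.ne
  · exact absurd hab (by rw [e]; exact h.2 b hvb)
  · exact absurd hab (by rw [e]; exact h'.2 b hvb)
  · exact absurd hab.symm (by rw [e]; exact h.2 a hva)
  · exact absurd hab.symm (by rw [e]; exact h'.2 a hva)
  · exact e

private theorem lk_symm {V : Type} {G : SimpleGraph V} {v u : V} (h : Lk G v u) : Lk G u v :=
  ⟨h.1.symm, fun w h1 h2 => h.2 w h2 h1⟩

open Classical in
/-- The neighbour outside the triangle, or the vertex itself. -/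
private noncomputable def tau {V : Type} (G : SimpleGraph V) (v : V) : V :=
  if h : ∃ u, Lk G v u then h.choose else v

private theorem tau_lk {V : Type} {G : SimpleGraph V} (hG : Good G) {v u : V} (h : Lk G v u) :
    tau G v = u := by
  have hex : ∃ u, Lk G v u := ⟨u, h⟩
  unfold tau
  rw [dif_pos hex]
  exact lk_uniq hG hex.choose_spec h

private theorem tau_cases {V : Type} (G : SimpleGraph V) (v : V) :
    Lk G v (tau G v) ∨ tau G v = v := by
  unfold tau
  by_cases hex : ∃ u, Lk G v u
  · rw [dif_pos hex]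
    exact Or.inl hex.choose_spec
  · rw [dif_neg hex]
    exact Or.inr rfl

private theorem tau_tau {V : Type} {G : SimpleGraph V} (hG : Good G) (v : V) :
    tau G (tau G v) = v := by
  rcases tau_cases G v with h | h
  · exact tau_lk hG (lk_symm h)
  · rw [h, h]

theorem tsys_step {V : Type} [Fintype V] [DecidableEq V] (G : SimpleGraph V) (hG : Good G)
    (huniq : ∀ v a b a' b', G.Adj v a → G.Adj v b → G.Adj a b → G.Adj v a' → G.Adj v b' →
      G.Adj a' b' → (a = a' ∧ b = b') ∨ (a = b' ∧ b = a')) : ∃ f, Lab G f := by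
  classical
  let Θ : Type := {s : Finset V // IsT G s}
  let e : ∀ s : Θ, Fin 3 ≃ s.1 := fun s => (Finset.equivFinOfCardEq (isT_card s.2)).symm
  let π : Θ × Fin 3 → V := fun p => (e p.1 p.2).1
  have hπmem : ∀ p, π p ∈ p.1.1 := fun p => (e p.1 p.2).2
  have hinj : Function.Injective π := by
    rintro ⟨s, i⟩ ⟨t, j⟩ h
    have hs : s = t := Subtype.ext
      (isT_uniq huniq s.2 t.2 (hπmem (s, i)) (by rw [h]; exact hπmem (t, j)))
    subst hs
    have : i = j := (e s).injective (Subtype.ext h)
    rw [this]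
  have hsurj : Function.Surjective π := by
    intro v
    obtain ⟨a, b, hva, hvb, hab⟩ := hG.tri v
    let s : Θ := ⟨{v, a, b}, v, a, b, hva, hvb, hab, rfl⟩
    have hv : v ∈ s.1 := Finset.mem_insert_self _ _
    refine ⟨(s, (e s).symm ⟨v, hv⟩), ?_⟩
    change ((e s) ((e s).symm ⟨v, hv⟩)).1 = v
    rw [Equiv.apply_symm_apply]
  let E : Θ × Fin 3 ≃ V := Equiv.ofBijective π ⟨hinj, hsurj⟩
  have hEmem : ∀ v, v ∈ (E.symm v).1.1 := by
    intro v
    have h := hπmem (E.symm v)
    have h2 : π (E.symm v) = v := E.apply_symm_apply v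
    rw [h2] at h
    exact h
  let σ : Θ × Fin 3 → Θ × Fin 3 := fun p => E.symm (tau G (E p))
  have h1 : ∀ p, σ (σ p) = p := by
    intro p
    change E.symm (tau G (E (E.symm (tau G (E p))))) = p
    rw [Equiv.apply_symm_apply, tau_tau hG, Equiv.symm_apply_apply]
  have h2 : ∀ p, (σ p).1 = p.1 → σ p = p := by
    intro p hp
    rcases tau_cases G (E p) with h | h
    · exfalso
      have m1 : E p ∈ p.1.1 := hπmem p
      have m2 : tau G (E p) ∈ p.1.1 := by
        have h3 : tau G (E p) ∈ (σ p).1.1 := hEmem (tau G (E p))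
        rw [hp] at h3
        exact h3
      obtain ⟨w, hw1, hw2⟩ := isT_two p.1.2 m1 m2 h.1.ne
      exact h.2 w hw1 hw2
    · change E.symm (tau G (E p)) = p
      rw [h, Equiv.symm_apply_apply]
  obtain ⟨f, hf1, hf2, hf3⟩ := tri_system σ h1 h2
  -- vertices of one triangle
  have hsame : ∀ u v w, G.Adj u v → G.Adj u w → G.Adj v w → (E.symm u).1 = (E.symm v).1 := by
    intro u v w huv huw hvw
    have hT : IsT G {u, v, w} := ⟨u, v, w, huv, huw, hvw, rfl⟩
    have a1 : (E.symm u).1.1 = {u, v, w} :=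
      isT_uniq huniq (E.symm u).1.2 hT (hEmem u) (Finset.mem_insert_self _ _)
    have a2 : (E.symm v).1.1 = {u, v, w} :=
      isT_uniq huniq (E.symm v).1.2 hT (hEmem v)
        (Finset.mem_insert_of_mem (Finset.mem_insert_self _ _))
    exact Subtype.ext (a1.trans a2.symm)
  have hD : ∀ u v, u ≠ v → (E.symm u).1 = (E.symm v).1 → D2 (f (E.symm u)) (f (E.symm v)) := by
    intro u v huv h
    have hne : (E.symm u).2 ≠ (E.symm v).2 := by
      intro h'
      exact huv (E.symm.injective (Prod.ext h h'))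
    have h3 := hf2 (E.symm u).1 (E.symm u).2 (E.symm v).2 hne
    have e2 : ((E.symm u).1, (E.symm v).2) = E.symm v := by
      rw [h]
    rw [e2] at h3
    exact h3
  have hL : ∀ u v, Lk G u v → σ (E.symm u) = E.symm v ∧ σ (E.symm u) ≠ E.symm u := by
    intro u v h
    have a1 : σ (E.symm u) = E.symm v := by
      change E.symm (tau G (E (E.symm u))) = E.symm v
      rw [Equiv.apply_symm_apply, tau_lk hG h]
    refine ⟨a1, ?_⟩
    rw [a1]
    intro h'
    exact h.1.ne (E.symm.injective h').symm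
  -- a companion and the outer neighbour
  have hmix : ∀ u v w, (E.symm u).1 = (E.symm w).1 → Lk G w v → f (E.symm u) ≠ f (E.symm v) := by
    intro u v w h hl
    obtain ⟨a1, a2⟩ := hL w v hl
    have h3 := (hf3 (E.symm w) a2).2 (E.symm u).2
    rw [a1, ← h] at h3
    exact h3
  have hdich : ∀ u v, G.Adj u v → (E.symm u).1 = (E.symm v).1 ∨ Lk G u v := by
    intro u v huv
    by_cases hex : ∃ w, G.Adj u w ∧ G.Adj v w
    · obtain ⟨w, hw1, hw2⟩ := hex
      exact Or.inl (hsame u v w huv hw1 hw2)
    · exact Or.inr ⟨huv, fun w h3 h4 => hex ⟨w, h3, h4⟩⟩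
  refine ⟨fun v => f (E.symm v), ⟨fun v => hf1 _, ?_, ?_⟩⟩
  · intro u v huv
    rcases hdich u v huv with h | h
    · exact hD u v huv.ne h
    · obtain ⟨a1, a2⟩ := hL u v h
      have h3 := (hf3 (E.symm u) a2).1
      rw [a1] at h3
      exact h3
  · intro u v w huv huw hwv
    rcases hdich u w huw with h | h
    · rcases hdich w v hwv with h' | h'
      · exact (hD u v huv (h.trans h')).ne
      · exact hmix u v w h h'
    · rcases hdich w v hwv with h' | h'
      · exact (hmix v u w h'.symm (lk_symm h)).symm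
      · exact absurd (lk_uniq hG (lk_symm h) h') huv

end Pool.Agent.helper28.CF
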