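import Pool.Agent.helper28.CF.Defs

/-!
CF-Words: the relations of words are closable, and compatible with the centres at the ends.
The proof is a finite automaton: families of sets of states which are reachable by every word.
-/

set_option autoImplicit false

namespace Pool.Agent.helper28.CF

theorem RL.swap {l : ℕ × ℕ} {s t : St} (h : RL l s t) : RL l t s := by
  obtain ⟨p, q, ⟨h1, h2, h3, h4, h5, h6, h7, h8⟩, rfl, rfl⟩ := h
  exact ⟨q, p, ⟨h3, h2, h1, h5, h4, h6.symm, h8, h7⟩, rfl, rfl⟩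

theorem WR.swap {b : Bool} {R : St → St → Prop} (h : WR b R) : WR b (fun s t => R t s) := by
  induction h with
  | letter l h =>
    have e : (fun s t => RL l t s) = RL l := by
      funext s t
      exact propext ⟨RL.swap, RL.swap⟩
    rw [e]
    exact WR.letter l h
  | comp h h' ih ih' =>
    rename_i b b' R R'
    have e : (fun s t => Cmp R R' t s) = Cmp (fun s t => R' t s) (fun s t => R t s) := by
      funext s t
      refine propext ⟨?_, ?_⟩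
      · rintro ⟨u, v, h1, h2, h3⟩
        exact ⟨v, u, h3, h2.symm, h1⟩
      · rintro ⟨u, v, h1, h2, h3⟩
        exact ⟨v, u, h3, h2.symm, h1⟩
    rw [e]
    exact WR.comp ih' ih

/-- From the out-state `s` through the letters `w` to the out-state `t`. -/
def Pth : St → List (ℕ × ℕ) → St → Prop
  | s, [], t => s = t
  | s, l :: w, t => ∃ v u, Cp s v ∧ RL l v u ∧ Pth u w t

theorem Pth.append {w w' : List (ℕ × ℕ)} {s t : St} :
    Pth s (w ++ w') t ↔ ∃ m, Pth s w m ∧ Pth m w' t := by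
  induction w generalizing s with
  | nil =>
    constructor
    · intro h
      exact ⟨s, rfl, h⟩
    · rintro ⟨m, rfl, h⟩
      exact h
  | cons l w ih =>
    constructor
    · rintro ⟨v, u, h1, h2, h3⟩
      obtain ⟨m, h4, h5⟩ := ih.1 h3
      exact ⟨m, ⟨v, u, h1, h2, h4⟩, h5⟩
    · rintro ⟨m, ⟨v, u, h1, h2, h4⟩, h5⟩
      exact ⟨v, u, h1, h2, ih.2 ⟨m, h4, h5⟩⟩

theorem WR.word {b : Bool} {R : St → St → Prop} (h : WR b R) :
    ∃ l w, Lt l ∧ (∀ x ∈ w, Lt x) ∧ (b = true → w ≠ []) ∧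
      ∀ s u t, RL l s u → Pth u w t → R s t := by
  induction h with
  | letter l h =>
    refine ⟨l, [], h, fun x hx => absurd hx (List.not_mem_nil), fun h => absurd h (by decide),
      fun s u t h1 h2 => ?_⟩
    rw [← (h2 : u = t)]
    exact h1
  | comp h h' ih ih' =>
    rename_i b b' R R'
    obtain ⟨l, w, hl, hw, -, hR⟩ := ih
    obtain ⟨l', w', hl', hw', -, hR'⟩ := ih'
    refine ⟨l, w ++ l' :: w', hl, ?_, fun _ => by simp, ?_⟩
    · intro x hx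
      rcases List.mem_append.1 hx with hx | hx
      · exact hw x hx
      · rcases List.mem_cons.1 hx with rfl | hx
        · exact hl'
        · exact hw' x hx
    · intro s u t h1 h2
      obtain ⟨m, h3, v, u', h4, h5, h6⟩ := Pth.append.1 h2
      exact ⟨m, v, hR s u m h1 h3, h4, hR' v u' t h5 h6⟩

/-! ### The automaton -/

def d2b (a b : ℕ) : Bool := Nat.ble (a + 2) b || Nat.ble (b + 2) a

theorem d2b_sound {a b : ℕ} (h : d2b a b = true) : D2 a b := by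
  unfold d2b at h
  rw [Bool.or_eq_true] at h
  rcases h with h | h
  · exact Or.inl (Nat.le_of_ble_eq_true h)
  · exact Or.inr (Nat.le_of_ble_eq_true h)

def nb (a b : ℕ) : Bool := !(Nat.beq a b)

theorem nb_sound {a b : ℕ} (h : nb a b = true) : a ≠ b := by
  rintro rfl
  have h1 : Nat.beq a a = true := Nat.beq_refl a
  rw [nb, h1] at h
  exact absurd h (by decide)

def cpb (s t : St) : Bool :=
  d2b s.1 t.1 && (nb s.1 t.2.1 && (nb s.1 t.2.2 && (nb t.1 s.2.1 && nb t.1 s.2.2)))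

theorem cpb_sound {s t : St} (h : cpb s t = true) : Cp s t := by
  unfold cpb at h
  simp only [Bool.and_eq_true] at h
  exact ⟨d2b_sound h.1, nb_sound h.2.1, nb_sound h.2.2.1, nb_sound h.2.2.2.1, nb_sound h.2.2.2.2⟩

def sw (t : St) : St := (t.2.2, t.2.1, t.1)

/-- `t` is an out-state of the letter `l`. -/
def memb (l : ℕ × ℕ) (t : St) : Bool :=
  Nat.beq t.2.1 l.1 && (Nat.ble t.2.2 7 && (Nat.ble l.1 7 && (Nat.ble t.1 7 &&
    (d2b t.2.2 l.1 && (d2b t.1 l.1 && (d2b t.2.2 t.1 && (nb t.2.2 l.2 && nb t.1 l.2)))))))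

theorem memb_sound {l : ℕ × ℕ} {t : St} (h : memb l t = true) : RL l (sw t) t := by
  unfold memb at h
  simp only [Bool.and_eq_true] at h
  obtain ⟨h0, h1, h2, h3, h4, h5, h6, h7, h8⟩ := h
  have e : t.2.1 = l.1 := Nat.eq_of_beq_eq_true h0
  refine ⟨t.2.2, t.1, ⟨Nat.le_of_ble_eq_true h1, Nat.le_of_ble_eq_true h2,
    Nat.le_of_ble_eq_true h3, d2b_sound h4, d2b_sound h5, d2b_sound h6, nb_sound h7,
    nb_sound h8⟩, ?_, ?_⟩
  · rw [sw, e]
  · rw [← e]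

/-- All elements of `S'` are reached from `S` by the letter `l`. -/
def stepb (S : List St) (l : ℕ × ℕ) (S' : List St) : Bool :=
  S'.all fun t => memb l t && S.any fun s => cpb s (sw t)

theorem stepb_sound {S S' : List St} {l : ℕ × ℕ} (h : stepb S l S' = true) {t : St}
    (ht : t ∈ S') : ∃ s ∈ S, ∃ v, Cp s v ∧ RL l v t := by
  have h1 := (List.all_eq_true.1 h) t ht
  rw [Bool.and_eq_true] at h1
  obtain ⟨s, hs, h2⟩ := List.any_eq_true.1 h1.2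
  exact ⟨s, hs, sw t, cpb_sound h2, memb_sound h1.1⟩

/-- Every letter leads from `S` into the family `F`. -/
def intob (Ls : List (ℕ × ℕ)) (F : List (List St)) (S : List St) : Bool :=
  Ls.all fun l => F.any fun S' => stepb S l S'

theorem reach {Ls : List (ℕ × ℕ)} {F : List (List St)} (hF : (F.all (intob Ls F)) = true)
    {w : List (ℕ × ℕ)} (hw : w ≠ []) (hL : ∀ x ∈ w, x ∈ Ls) {S : List St}
    (hS : intob Ls F S = true) : ∃ S' ∈ F, ∀ t ∈ S', ∃ s ∈ S, Pth s w t := by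
  induction w generalizing S with
  | nil => exact absurd rfl hw
  | cons l w ih =>
    obtain ⟨S1, hS1, h1⟩ := List.any_eq_true.1 (List.all_eq_true.1 hS l (hL l (by simp)))
    by_cases hw' : w = []
    · subst hw'
      refine ⟨S1, hS1, fun t ht => ?_⟩
      obtain ⟨s, hs, v, h2, h3⟩ := stepb_sound h1 ht
      exact ⟨s, hs, v, t, h2, h3, rfl⟩
    · obtain ⟨S', hS', h2⟩ := ih hw' (fun x hx => hL x (List.mem_cons_of_mem _ hx))
        (List.all_eq_true.1 hF S1 hS1)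
      refine ⟨S', hS', fun t ht => ?_⟩
      obtain ⟨s1, hs1, h3⟩ := h2 t ht
      obtain ⟨s, hs, v, h4, h5⟩ := stepb_sound h1 hs1
      exact ⟨s, hs, v, s1, h4, h5, h3⟩

/-- One round of the closing lemma: words starting with the letter `l`. -/
theorem round {Ls : List (ℕ × ℕ)} {F : List (List St)} {l : ℕ × ℕ} {u : St}
    (hu : memb l u = true) (hs : intob Ls F [u] = true) (hF : (F.all (intob Ls F)) = true)
    (hf : (F.all fun S => S.any fun t => cpb t (sw u)) = true) {w : List (ℕ × ℕ)}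
    (hw : w ≠ []) (hL : ∀ x ∈ w, x ∈ Ls) : ∃ s, Pth s (l :: w) s := by
  obtain ⟨S', hS', h1⟩ := reach hF hw hL hs
  obtain ⟨t, ht, h2⟩ := List.any_eq_true.1 (List.all_eq_true.1 hf S' hS')
  obtain ⟨s, hs', h3⟩ := h1 t ht
  rw [List.mem_singleton] at hs'
  subst hs'
  exact ⟨t, sw s, s, cpb_sound h2, memb_sound hu, h3⟩

def WF0 : List (List St) := [
  [(4, 0, 2), (6, 0, 2), (6, 0, 3)],
  [(1, 7, 3), (4, 7, 2)],
  [(6, 0, 3), (7, 0, 3)],
  [(2, 0, 4), (2, 0, 6), (3, 0, 6), (4, 0, 2), (5, 0, 2), (5, 0, 3)],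
  [(2, 0, 4), (2, 0, 6), (2, 0, 7), (3, 0, 6), (3, 0, 7), (4, 0, 2), (7, 0, 2), (7, 0, 3), (7, 0, 4)],
  [(3, 0, 6), (3, 0, 7), (5, 0, 3), (5, 0, 7), (7, 0, 3), (7, 0, 4)],
  [(2, 0, 4), (2, 0, 5), (2, 0, 6), (3, 0, 5), (3, 0, 6), (4, 0, 6), (6, 0, 4)],
  [(2, 7, 4), (2, 7, 5), (3, 7, 1), (3, 7, 5), (5, 7, 1)],
  [(2, 0, 4), (2, 0, 6), (3, 0, 6), (4, 0, 6), (6, 0, 4), (7, 0, 4)],
  [(2, 0, 4), (2, 0, 5), (3, 0, 5), (4, 0, 2), (5, 0, 2), (6, 0, 2), (6, 0, 4)],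
  [(1, 7, 4), (2, 7, 4), (3, 7, 1), (4, 7, 1), (4, 7, 2), (5, 7, 1), (5, 7, 2)],
  [(2, 0, 4), (4, 0, 2), (6, 0, 2), (6, 0, 4), (7, 0, 2), (7, 0, 4)],
  [(3, 0, 5), (6, 0, 4), (7, 0, 4)],
  [(1, 7, 4), (1, 7, 5), (2, 7, 5), (3, 7, 1), (3, 7, 5), (4, 7, 1), (5, 7, 1)],
  [(2, 0, 5), (2, 0, 6), (3, 0, 5), (3, 0, 6), (4, 0, 2), (4, 0, 6), (5, 0, 2), (5, 0, 3), (6, 0, 2), (6, 0, 4)],
  [(2, 0, 6), (2, 0, 7), (3, 0, 6), (3, 0, 7), (4, 0, 2), (4, 0, 6), (4, 0, 7), (6, 0, 2), (6, 0, 4), (7, 0, 2), (7, 0, 3), (7, 0, 4)]]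

def WF1 : List (List St) := [
  [(3, 0, 5), (6, 0, 4)],
  [(3, 0, 7), (4, 0, 7), (6, 0, 4), (7, 0, 4)],
  [(2, 0, 6), (4, 0, 2), (4, 0, 6), (5, 0, 2), (5, 0, 3)],
  [(2, 0, 6), (2, 0, 7), (4, 0, 2), (4, 0, 6), (4, 0, 7), (7, 0, 2), (7, 0, 3)],
  [(4, 0, 6), (4, 0, 7), (5, 0, 3), (5, 0, 7), (7, 0, 3)],
  [(2, 0, 6), (3, 0, 6), (4, 0, 2), (4, 0, 6), (6, 0, 2), (6, 0, 3), (7, 0, 2), (7, 0, 3)],
  [(3, 0, 5), (3, 0, 6), (4, 0, 6), (5, 0, 3), (6, 0, 3), (7, 0, 3), (7, 0, 5)],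
  [(2, 0, 4), (2, 0, 6), (2, 0, 7), (3, 0, 6), (3, 0, 7), (4, 0, 2), (4, 0, 7), (6, 0, 2), (6, 0, 3), (6, 0, 4), (7, 0, 2), (7, 0, 3)]]

def WF2 : List (List St) := [
  [(3, 0, 7), (4, 0, 7), (6, 0, 4), (7, 0, 4)],
  [(2, 0, 6), (3, 0, 6), (4, 0, 2), (4, 0, 6), (6, 0, 2), (6, 0, 3), (7, 0, 2), (7, 0, 3)],
  [(3, 0, 5), (3, 0, 6), (4, 0, 6), (5, 0, 3), (6, 0, 3), (7, 0, 3), (7, 0, 5)]]

def WF3 : List (List St) := [
  [(3, 0, 5), (6, 0, 4)],
  [(4, 0, 6), (4, 0, 7), (5, 0, 3), (5, 0, 7), (7, 0, 3)]]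

def WFC : List (List St) := [
  [(2, 0, 4), (2, 0, 5), (3, 0, 5), (3, 0, 6), (4, 0, 2), (4, 0, 6), (5, 0, 2), (5, 0, 3), (6, 0, 2), (6, 0, 4)],
  [(2, 0, 4), (2, 0, 7), (3, 0, 6), (3, 0, 7), (4, 0, 2), (4, 0, 6), (4, 0, 7), (6, 0, 2), (6, 0, 4), (7, 0, 2), (7, 0, 3), (7, 0, 4)],
  [(3, 0, 5), (3, 0, 6), (3, 0, 7), (4, 0, 6), (4, 0, 7), (5, 0, 3), (5, 0, 7), (6, 0, 4), (7, 0, 3), (7, 0, 4), (7, 0, 5)],
  [(2, 0, 5), (2, 0, 6), (3, 0, 5), (3, 0, 6), (4, 0, 2), (4, 0, 6), (5, 0, 2), (5, 0, 3), (6, 0, 2), (6, 0, 3)],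
  [(1, 7, 3), (1, 7, 5), (2, 7, 5), (3, 7, 1), (3, 7, 5), (4, 7, 1), (4, 7, 2), (5, 7, 2), (5, 7, 3)],
  [(2, 0, 6), (3, 0, 6), (4, 0, 2), (4, 0, 6), (6, 0, 2), (6, 0, 3), (7, 0, 2), (7, 0, 3)],
  [(3, 0, 5), (3, 0, 6), (4, 0, 6), (5, 0, 3), (6, 0, 3), (7, 0, 3), (7, 0, 5)],
  [(2, 0, 4), (2, 0, 5), (3, 0, 5), (4, 0, 2), (5, 0, 2), (5, 0, 3), (6, 0, 2), (6, 0, 3), (6, 0, 4)],
  [(2, 0, 4), (2, 0, 7), (3, 0, 7), (4, 0, 2), (4, 0, 7), (6, 0, 2), (6, 0, 3), (6, 0, 4), (7, 0, 2), (7, 0, 3), (7, 0, 4)],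
  [(3, 0, 5), (3, 0, 7), (4, 0, 7), (5, 0, 3), (5, 0, 7), (6, 0, 3), (6, 0, 4), (7, 0, 3), (7, 0, 4), (7, 0, 5)],
  [(1, 7, 3), (1, 7, 5), (2, 7, 5), (3, 7, 1), (4, 7, 1), (4, 7, 2), (5, 7, 1), (5, 7, 2), (5, 7, 3)],
  [(1, 7, 4), (1, 7, 5), (2, 7, 4), (2, 7, 5), (3, 7, 1), (4, 7, 1), (4, 7, 2), (5, 7, 1), (5, 7, 2)],
  [(2, 0, 4), (2, 0, 6), (2, 0, 7), (3, 0, 7), (4, 0, 2), (4, 0, 6), (4, 0, 7), (6, 0, 2), (6, 0, 3), (6, 0, 4), (7, 0, 2), (7, 0, 4)],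
  [(3, 0, 5), (3, 0, 7), (4, 0, 6), (4, 0, 7), (5, 0, 3), (5, 0, 7), (6, 0, 3), (6, 0, 4), (7, 0, 4), (7, 0, 5)],
  [(2, 0, 4), (2, 0, 6), (3, 0, 5), (3, 0, 6), (4, 0, 2), (4, 0, 6), (5, 0, 2), (5, 0, 3), (6, 0, 2), (6, 0, 3), (6, 0, 4)],
  [(1, 7, 3), (1, 7, 4), (1, 7, 5), (2, 7, 4), (3, 7, 1), (3, 7, 5), (4, 7, 1), (4, 7, 2), (5, 7, 1), (5, 7, 2), (5, 7, 3)]]

def WSC : List (List St) := [
  [(2, 0, 4), (2, 0, 6), (3, 0, 6), (4, 0, 6), (5, 0, 3), (6, 0, 3), (6, 0, 4)],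
  [(1, 7, 4), (2, 7, 4), (4, 7, 1), (5, 7, 1), (5, 7, 3)],
  [(2, 0, 4), (2, 0, 6), (3, 0, 6), (4, 0, 6), (6, 0, 3), (6, 0, 4), (7, 0, 3), (7, 0, 4)],
  [(3, 0, 6), (4, 0, 6), (5, 0, 3), (6, 0, 3), (6, 0, 4), (7, 0, 3), (7, 0, 4)]]

theorem rotate {l : ℕ × ℕ} {L : List (ℕ × ℕ)} (hl : l ∈ L) (h2 : 2 ≤ L.length) :
    ∃ w, w ≠ [] ∧ (∀ x ∈ w, x ∈ L) ∧ ((∃ s, Pth s (l :: w) s) → ∃ s, Pth s L s) := by
  obtain ⟨A, B, rfl⟩ := List.append_of_mem hl
  refine ⟨B ++ A, ?_, ?_, ?_⟩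
  · intro h
    rw [List.append_eq_nil_iff] at h
    rw [h.1, h.2] at h2
    simp at h2
  · intro x hx
    rcases List.mem_append.1 hx with hx | hx
    · exact List.mem_append_right _ (List.mem_cons_of_mem _ hx)
    · exact List.mem_append_left _ hx
  · rintro ⟨s, hs⟩
    rw [← List.cons_append] at hs
    obtain ⟨m, h3, h4⟩ := Pth.append.1 hs
    exact ⟨m, Pth.append.2 ⟨s, h4, h3⟩⟩

theorem clo {L : List (ℕ × ℕ)} (h2 : 2 ≤ L.length) (hL : ∀ x ∈ L, Lt x) : ∃ s, Pth s L s := by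
  by_cases h70 : ((7, 0) : ℕ × ℕ) ∈ L
  · obtain ⟨w, hw, hwL, h⟩ := rotate h70 h2
    refine h (round (Ls := [(0, 7), (7, 0), (0, 5), (0, 2)]) (F := WF0) (u := (5, 7, 1))
      (by decide) (by decide +kernel) (by decide +kernel) (by decide +kernel) hw ?_)
    intro x hx
    rcases hL x (hwL x hx) with rfl | rfl | rfl | rfl <;> decide
  by_cases h07 : ((0, 7) : ℕ × ℕ) ∈ L
  · obtain ⟨w, hw, hwL, h⟩ := rotate h07 h2
    refine h (round (Ls := [(0, 7), (0, 5), (0, 2)]) (F := WF1) (u := (2, 0, 6))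
      (by decide) (by decide +kernel) (by decide +kernel) (by decide +kernel) hw ?_)
    intro x hx
    have hx' := hwL x hx
    rcases hL x hx' with rfl | rfl | rfl | rfl
    · decide
    · exact absurd hx' h70
    · decide
    · decide
  by_cases h05 : ((0, 5) : ℕ × ℕ) ∈ L
  · obtain ⟨w, hw, hwL, h⟩ := rotate h05 h2
    refine h (round (Ls := [(0, 5), (0, 2)]) (F := WF2) (u := (2, 0, 6))
      (by decide) (by decide +kernel) (by decide +kernel) (by decide +kernel) hw ?_)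
    intro x hx
    have hx' := hwL x hx
    rcases hL x hx' with rfl | rfl | rfl | rfl
    · exact absurd hx' h07
    · exact absurd hx' h70
    · decide
    · decide
  have hne : L ≠ [] := by
    rintro rfl
    simp at h2
  obtain ⟨x, L', rfl⟩ := List.exists_cons_of_ne_nil hne
  have h02 : ((0, 2) : ℕ × ℕ) ∈ x :: L' := by
    have hx' : x ∈ x :: L' := List.mem_cons_self
    rcases hL x hx' with rfl | rfl | rfl | rfl
    · exact absurd hx' h07
    · exact absurd hx' h70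
    · exact absurd hx' h05
    · exact hx'
  obtain ⟨w, hw, hwL, h⟩ := rotate h02 h2
  refine h (round (Ls := [(0, 2)]) (F := WF3) (u := (7, 0, 3))
    (by decide) (by decide +kernel) (by decide +kernel) (by decide +kernel) hw ?_)
  intro y hy
  have hy' := hwL y hy
  rcases hL y hy' with rfl | rfl | rfl | rfl
  · exact absurd hy' h07
  · exact absurd hy' h70
  · exact absurd hy' h05
  · decide

/-- The relation of a word with at least two letters can be closed up to a cycle. -/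
theorem WR.closes {R : St → St → Prop} (h : WR true R) : ∃ s t, R s t ∧ Cp t s := by
  obtain ⟨l, w, hl, hw, hne, hR⟩ := h.word
  have hw' := hne rfl
  have h2 : 2 ≤ (l :: w).length := by
    have := List.length_pos_of_ne_nil hw'
    rw [List.length_cons]
    omega
  obtain ⟨s, v, u, h1, h3, h4⟩ := clo h2 (fun x hx => by
    rcases List.mem_cons.1 hx with rfl | hx
    · exact hl
    · exact hw x hx)
  exact ⟨v, s, hR v u s h3 h4, h1⟩

def capb (s : St) : Bool := cpb s (1, 5, 7) || (cpb s (2, 5, 7) || cpb s (3, 5, 7))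

theorem capb_sound {s : St} (h : capb s = true) : Cap s := by
  unfold capb at h
  simp only [Bool.or_eq_true] at h
  rcases h with h | h | h
  · exact Or.inl (cpb_sound h)
  · exact Or.inr (Or.inl (cpb_sound h))
  · exact Or.inr (Or.inr (cpb_sound h))

/-- The start sets of the letters. -/
def capS (l : ℕ × ℕ) : List St :=
  if l = (0, 7) then WSC.getD 0 [] else if l = (7, 0) then WSC.getD 1 []
  else if l = (0, 5) then WSC.getD 2 [] else WSC.getD 3 []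

theorem capS_ok : ([(0, 7), (7, 0), (0, 5), (0, 2)] : List (ℕ × ℕ)).all (fun l =>
    (capS l).all (fun u => memb l u && capb (sw u)) && ((capS l).any capb &&
      intob [(0, 7), (7, 0), (0, 5), (0, 2)] WFC (capS l))) = true := by
  decide +kernel

theorem capF_ok : (WFC.all (intob [(0, 7), (7, 0), (0, 5), (0, 2)] WFC)) = true := by
  decide +kernel

theorem capE_ok : (WFC.all fun S => S.any capb) = true := by
  decide +kernel

/-- Every word relation has a pair of states which are compatible with centres at both ends. -/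
theorem WR.caps {b : Bool} {R : St → St → Prop} (h : WR b R) : ∃ s t, R s t ∧ Cap s ∧ Cap t := by
  obtain ⟨l, w, hl, hw, -, hR⟩ := h.word
  have hmem : ∀ x, Lt x → x ∈ ([(0, 7), (7, 0), (0, 5), (0, 2)] : List (ℕ × ℕ)) := by
    intro x hx
    rcases hx with rfl | rfl | rfl | rfl <;> decide
  have h1 := List.all_eq_true.1 capS_ok l (hmem l hl)
  simp only [Bool.and_eq_true] at h1
  obtain ⟨h2, h3, h4⟩ := h1
  have h5 : ∀ u ∈ capS l, RL l (sw u) u ∧ Cap (sw u) := by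
    intro u hu
    have := List.all_eq_true.1 h2 u hu
    rw [Bool.and_eq_true] at this
    exact ⟨memb_sound this.1, capb_sound this.2⟩
  by_cases hw' : w = []
  · subst hw'
    obtain ⟨u, hu, h6⟩ := List.any_eq_true.1 h3
    exact ⟨sw u, u, hR _ _ _ (h5 u hu).1 rfl, (h5 u hu).2, capb_sound h6⟩
  · obtain ⟨S', hS', h6⟩ := reach capF_ok hw' (fun x hx => hmem x (hw x hx)) h4
    obtain ⟨t, ht, h7⟩ := List.any_eq_true.1 (List.all_eq_true.1 capE_ok S' hS')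
    obtain ⟨u, hu, h8⟩ := h6 t ht
    exact ⟨sw u, t, hR _ _ _ (h5 u hu).1 h8, (h5 u hu).2, capb_sound h7⟩

end Pool.Agent.helper28.CF
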